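import Pool.Agent.P.MP_845aff_co.TW.Faces

namespace Pool.Agent.P.MP_845aff_co.TW

open PMap Set

variable {V D : Type} [DecidableEq V] [Fintype V] [Fintype D] [DecidableEq D] {G : SimpleGraph V}

namespace Ctx

variable (C : Ctx G D)

def Ext (X : Set V) (e : D) (b : V) : Prop :=
  ∃ x ∈ X, C.M.tl e = some x ∧ C.M.tl (C.M.a e) = some b ∧ b ∉ X ∧ G.Adj x b

/-- no potential of a cycle inside `X` separates the two darts -/
def Eqv (X : Set V) (d e : D) : Prop :=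
  ∀ c w : D → ZMod 2, C.M.IsChain c → C.M.Supp c (o X) → (∀ d, w (C.M.s d) = w d + c d) →
    (∀ d, w (C.M.a d) = w d + c d) → w d = w e

def Piece (k K b c i : ℕ) (X : Set V) (ord : V → ℤ) : Prop :=
  Conn G X ∧ ∃ (d0 : D) (Pend : Set V) (rank : V → ℕ), C.M.tl d0 ∈ o X ∧
    (∀ e b, C.Ext X e b → (C.f X).SameCycle d0 e) ∧
    (∀ k k' b b', k < k' → k' < per (C.f X) d0 → C.Ext X (el (C.f X) d0 k) b →
      C.Ext X (el (C.f X) d0 k') b' → ord b ≤ ord b') ∧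
    Pend ⊆ X ∧ Pend.ncard ≤ K ∧ (bd G X).ncard ≤ b ∧
    (∀ v ∈ Pend, i ≤ rank v ∧ rank v < k ∧ ∃ d, C.M.tl d = some v ∧ (C.Eqv X d0 d ∨
      ∃ u ∈ Pend, rank u < rank v ∧ ∃ e, C.M.tl e = some u ∧ C.Eqv X d e)) ∧
    ∀ y ∈ X \ Pend, (bd G (comp G (X \ Pend) y)).ncard ≤ c

variable {C}

omit [Fintype V] [DecidableEq D] in
lemma Eqv.mono {X Y : Set V} {d e : D} (h : C.Eqv X d e) (hY : Y ⊆ X) : C.Eqv Y d e :=
  fun c w h1 h2 => h c w h1 (h2.mono (o_mono hY))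

omit [Fintype V] [DecidableEq D] in
lemma Eqv.symm {X : Set V} {d e : D} (h : C.Eqv X d e) : C.Eqv X e d :=
  fun c w h1 h2 h3 h4 => (h c w h1 h2 h3 h4).symm

omit [Fintype V] [DecidableEq D] in
lemma Eqv.trans {X : Set V} {d e g : D} (h : C.Eqv X d e) (h' : C.Eqv X e g) : C.Eqv X d g :=
  fun c w h1 h2 h3 h4 => (h c w h1 h2 h3 h4).trans (h' c w h1 h2 h3 h4)

omit [Fintype V] [DecidableEq D] in
lemma eqv_cyc {X : Set V} {d e : D} (hd : C.M.tl d ∈ o X) (h : (C.f X).SameCycle d e) :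
    C.Eqv X d e := fun _ _ h1 h2 h3 h4 => (C.w_outer hd h1 h2 h3 h4 h).symm

omit [Fintype V] [DecidableEq D] in
lemma eqv_conn {Y Z : Set V} (hZ : Conn G Z) (hY : ∀ x ∈ Z, x ∉ Y) {d e : D}
    (hd : C.M.tl d ∈ o Z) (he : C.M.tl e ∈ o Z) : C.Eqv Y d e := by
  intro c w _ cs w1 w2
  have : ∀ d, C.M.tl d ∈ o Z → c d = 0 := by
    rintro d ⟨x, hx, h⟩
    exact cs d (by rw [← h]; simpa using hY x hx)
  exact C.const_conn hZ w (fun d hd => by rw [w1, this d hd, add_zero])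
    (fun d hd _ => by rw [w2, this d hd, add_zero]) hd he

omit [Fintype V] [DecidableEq D] in
lemma eqv_at {Y : Set V} {x : V} (hx : x ∉ Y) {d e : D} (hd : C.M.tl d = some x)
    (he : C.M.tl e = some x) : C.Eqv Y d e :=
  eqv_conn (conn_singleton x) (by simpa using hx) (by simp [hd]) (by simp [he])

omit [Fintype V] [DecidableEq D] in
lemma eqv_a {Y : Set V} {d : D} (h : C.M.tl (C.M.a d) ∉ o Y) : C.Eqv Y d (C.M.a d) :=
  fun c w cc cs _ w2 => by rw [w2, cs.out cc h, add_zero]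

variable (C)

omit [Fintype V] [DecidableEq D] in
lemma gd_ext {X : Set V} {x b : V} (hx : x ∈ X) (hb : b ∉ X) (h : G.Adj x b) :
    C.Ext X (C.gd x b) b := ⟨x, hx, C.gd1 _ _ h, C.gd2 _ _ h, hb, h⟩

omit [DecidableEq D] in
lemma top (k K b c : ℕ) (v : V) : C.Piece k K b c k (comp G univ v) 0 := by
  set X := comp G univ v with hX
  have hc : Conn G X := conn_comp (mem_univ v)
  have nb : ∀ x ∈ X, ∀ b, G.Adj x b → b ∈ X := fun x hx b h => comp_step (mem_univ v) hx h trivial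
  have bX : bd G X = ∅ := by
    ext b; simp only [mem_empty_iff_false, iff_false]
    rintro ⟨h1, x, hx, h⟩; exact h1 (nb x hx b h)
  refine ⟨hc, C.td v, ∅, fun _ => 0, by rw [C.td1]; simpa using self_mem_comp univ v, ?_,
    fun _ _ _ _ _ _ _ _ => le_rfl, empty_subset _, by simp, by simp [bX], by simp, ?_⟩
  · rintro e b ⟨x, hx, -, -, h1, h2⟩
    exact absurd (nb x hx b h2) h1
  · intro y hy
    have : comp G (X \ ∅) y = X := by
      rw [diff_empty]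
      exact (comp_sub hy.1).antisymm fun w hw => hc y hy.1 w hw
    rw [this, bX]; simp

omit [Fintype V] [DecidableEq D] in
lemma out_eqv {X N : Set V} (hc : Conn G X) {d0 : D} (h0 : C.M.tl d0 ∈ o X) (NX : N ⊆ X)
    (hN : N.Nonempty) (cor : ∀ n ∈ N, ∃ e, (C.f X).SameCycle d0 e ∧ C.M.tl e = some n) {y : V}
    (hy : y ∈ X \ N) {u : V} (uX : u ∈ X) (uY : u ∉ comp G (X \ N) y) {e : D}
    (he : C.M.tl e = some u) : C.Eqv (comp G (X \ N) y) d0 e := by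
  have YX := comp_sub (G := G) hy
  have key : ∀ n ∈ N, ∀ e, C.M.tl e = some n → C.Eqv (comp G (X \ N) y) d0 e := by
    intro n hn e he
    obtain ⟨e', a1, a2⟩ := cor n hn
    exact ((eqv_cyc h0 a1).mono fun x hx => (YX hx).1).trans
      (eqv_at (fun h => (YX h).2 hn) a2 he)
  by_cases uN : u ∈ N
  · exact key u uN e he
  obtain ⟨n, hn, x, hx, h⟩ : ∃ n ∈ N, ∃ x ∈ comp G (X \ N) u, G.Adj x n := by
    by_contra hcon
    obtain ⟨n, hn⟩ := hN
    refine (comp_sub (G := G) (X := X \ N) ⟨uX, uN⟩ (hc.sub_of_closed uX (self_mem_comp _ u)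
      (fun a ha b hab _ bX => comp_step (X := X \ N) ⟨uX, uN⟩ ha hab ⟨bX, fun k => hcon ⟨b, k, a, ha, hab⟩⟩)
      (NX hn))).2 hn
  refine (key n hn _ (C.td1 n)).trans (eqv_conn ((conn_comp (X := X \ N) ⟨uX, uN⟩).insert hx h)
    ?_ (by simp [C.td1]) (by rw [he]; exact some_mem_o.2 (Or.inr (self_mem_comp _ u))))
  rintro z (rfl | hz) k
  · exact (YX k).2 hn
  · exact uY (comp_eq_of_mem hz k ▸ self_mem_comp _ u)

omit [Fintype V] [DecidableEq D] in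
lemma ext_unique {X : Set V} {e : D} {b b' : V} (h : C.Ext X e b) (h' : C.Ext X e b') : b = b' := by
  obtain ⟨_, -, -, h, -⟩ := h
  obtain ⟨_, -, -, h', -⟩ := h'
  exact Option.some.inj (h.symm.trans h')

/-- choosing the cut of the face of a component -/
lemma child_mono {X Y : Set V} (hY : Conn G Y) (hYX : Y ⊆ X) {d0 : D} (h0 : C.M.tl d0 ∈ o X)
    (horb : ∀ e e' b b', C.Ext Y e b → C.Ext Y e' b' → (C.f Y).SameCycle e e')
    (hne : (bd G Y).Nonempty) (rep : V → ℤ)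
    (hrep : ∀ s ∈ bd G Y, s ∈ X ∧ ∃ r < per (C.f X) d0, rep s = r ∧
      C.M.tl (el (C.f X) d0 r) = some s) :
    ∃ g0 b0, C.Ext Y g0 b0 ∧ ∀ k k' b b', k < k' → k' < per (C.f Y) g0 →
      C.Ext Y (el (C.f Y) g0 k) b → C.Ext Y (el (C.f Y) g0 k') b' → rep b ≤ rep b' := by
  classical
  obtain ⟨s1, hs1, hmin⟩ := exists_min_image (bd G Y) rep (toFinite _) hne
  have ebd : ∀ e b, C.Ext Y e b → b ∈ bd G Y := by
    rintro e b ⟨x, hx, -, -, h1, h2⟩; exact ⟨h1, x, hx, h2⟩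
  obtain ⟨s1Y, x1, hx1, a1⟩ := id hs1
  have e1 := C.gd_ext hx1 s1Y a1
  by_cases hall : ∀ e b, C.Ext Y e b → b = s1
  · exact ⟨_, _, e1, fun k k' b b' _ _ h h' => by rw [hall _ _ h, hall _ _ h']⟩
  push Not at hall
  obtain ⟨g, bg, hg, hbg⟩ := hall
  have hex : ∃ k, k < per (C.f Y) g ∧ C.Ext Y (el (C.f Y) g k) s1 := by
    obtain ⟨k, hk, hk'⟩ := exists_el _ _ (horb _ _ _ _ hg e1)
    exact ⟨k, hk, hk' ▸ e1⟩
  obtain ⟨hk0, ek0⟩ := Nat.find_spec hex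
  set k0 := Nat.find hex with hk0'
  set g0 := el (C.f Y) g k0 with hg0
  have hper : per (C.f Y) g0 = per (C.f Y) g := by
    have := Function.minimalPeriod_apply_iterate
      ((C.f Y).injective.mem_periodicPts g) k0
    rwa [Equiv.Perm.iterate_eq_pow] at this
  have hel : ∀ k, el (C.f Y) g0 k = el (C.f Y) g (k + k0) := by
    intro k; simp [hg0, el, pow_add]
  have g0Y : C.M.tl g0 ∈ o Y := by
    obtain ⟨x, hx, h, -⟩ := ek0
    rw [h]; simpa
  have hd : ∀ {e b}, C.Ext Y e b → C.M.tl (C.M.a e) = some b := fun ⟨_, _, _, h, _⟩ => h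
  refine ⟨g0, s1, ek0, fun k k' b b' hkk hk' h h' => ?_⟩
  by_contra hlt
  push Not at hlt
  have m1 := hmin b' (ebd _ _ h')
  have bs : b ≠ s1 := fun e => by rw [e] at hlt; omega
  have k0' : 0 < k := by
    rcases Nat.eq_zero_or_pos k with e | e
    · rw [e] at h; exact absurd (C.ext_unique h ek0) bs
    · exact e
  obtain ⟨sX, r1, hr1, q1, y1⟩ := hrep s1 hs1
  obtain ⟨bX, r, hr, q, y⟩ := hrep b (ebd _ _ h)
  obtain ⟨bX', r', hr', q', y'⟩ := hrep b' (ebd _ _ h')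
  by_cases bs' : b' = s1
  · obtain ⟨gX, rg, hrg, -, yg⟩ := hrep bg (ebd _ _ hg)
    obtain ⟨t, u, th, -⟩ := C.theta hY hYX h0 g0Y (j1 := 0) (j2 := k') (by omega) hk' le_rfl hr1
      sX sX s1Y s1Y (hd ek0) (bs' ▸ hd h') y1 y1
    have k00 : 0 < k0 := by
      rcases Nat.eq_zero_or_pos k0 with e | e
      · rw [hg0, e] at ek0; exact absurd (C.ext_unique hg ek0) hbg
      · exact e
    have lt : k' + k0 < per (C.f Y) g := by
      by_contra hn
      refine Nat.find_min hex (m := k' + k0 - per (C.f Y) g) (by omega) ⟨by omega, ?_⟩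
      rw [hel, bs', ← el_mod, Nat.mod_eq_sub_mod (by omega), el_mod] at h'
      exact h'
    have a1 := th k r b k0' (by omega) hr bX (ebd _ _ h).1 bs bs (hd h) y
    have a2 := th (per (C.f Y) g - k0) rg bg (by omega) (by omega) hrg gX (ebd _ _ hg).1 hbg hbg
      (by rw [hel, Nat.sub_add_cancel hk0.le, el_per]; exact hd hg) yg
    rw [if_pos (by omega), if_neg (by omega)] at a1
    rw [if_neg (by omega), if_neg (by omega)] at a2
    have : (1 : ZMod 2) = 0 := by linear_combination a1 - a2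
    exact absurd this (by decide)
  · obtain ⟨t, u, th, tu⟩ := C.theta hY hYX h0 g0Y (j1 := 0) (j2 := k) (r1 := r1) (r2 := r) k0'
      (by omega) (by omega) hr sX bX s1Y (ebd _ _ h).1 (hd ek0) (hd h) y1 y
    have a1 := th k' r' b' (by omega) hk' hr' bX' (ebd _ _ h').1 bs'
      (fun e => by rw [e] at hlt; omega) (hd h') y'
    rw [if_neg (by omega), if_pos (by omega), tu bs.symm] at a1
    simp at a1

theorem step {Δ : ℕ} (hΔ : ∀ v, (G.neighborSet v).ncard ≤ Δ) {k K b c i A : ℕ} {X : Set V}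
    {ord : V → ℤ} (hP : C.Piece k K b c i X ord) (hA : K + (b * Δ + 1) ≤ A)
    (P : Set V → (V → ℤ) → Prop)
    (hch : ∀ Y rep, C.Piece k K (K + (b * Δ + 1)) (c + (c * Δ + 1)) (i + 1) Y rep → P Y rep) :
    Nonempty (Step G A P X ord) := by
  classical
  obtain ⟨hc, d0, Pend, rank, h0, hext, hmono, PX, Pc, Bc, Pd, hcell⟩ := hP
  obtain ⟨x0, hx0, ex0⟩ := id h0
  let Must : Set V := insert x0 {x | x ∈ X ∧ ∃ b, b ∉ X ∧ G.Adj x b}
  let N : Set V := {v | v ∈ Pend ∧ ∃ e, (C.f X).SameCycle d0 e ∧ C.M.tl e = some v} ∪ Must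
  have NX : N ⊆ X := by
    rintro v (h | rfl | h)
    exacts [PX h.1, hx0, h.1]
  have nb : ∀ x ∈ X, ∀ b, b ∉ X → G.Adj x b → x ∈ N :=
    fun x hx b hb h => Or.inr (Or.inr ⟨hx, b, hb, h⟩)
  have cor : ∀ n ∈ N, ∃ e, (C.f X).SameCycle d0 e ∧ C.M.tl e = some n := by
    rintro n (h | rfl | ⟨h, b, hb, hb'⟩)
    · exact h.2
    · exact ⟨d0, .refl _ _, ex0.symm⟩
    · exact ⟨_, hext _ _ (C.gd_ext h hb hb'), C.gd1 _ _ hb'⟩
  have Nc : N.ncard ≤ K + (b * Δ + 1) := by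
    have a6 : Must.ncard ≤ b * Δ + 1 := by
      have b1 : Must ⊆ insert x0 {x | ∃ b ∈ bd G X, G.Adj x b} := by
        rintro x (rfl | ⟨hx, b, hb, h⟩)
        · exact mem_insert _ _
        · exact Or.inr ⟨b, ⟨hb, x, hx, h⟩, h⟩
      have b2 := ncard_le_ncard b1
      have b3 := ncard_insert_le x0 {x | ∃ b ∈ bd G X, G.Adj x b}
      have b4 := ncard_nb hΔ (bd G X)
      have b5 : (bd G X).ncard * Δ ≤ b * Δ := Nat.mul_le_mul_right _ Bc
      omega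
    have a7 := ncard_union_le
      {v | v ∈ Pend ∧ ∃ e, (C.f X).SameCycle d0 e ∧ C.M.tl e = some v} Must
    have a8 := ncard_le_ncard (show
      {v | v ∈ Pend ∧ ∃ e, (C.f X).SameCycle d0 e ∧ C.M.tl e = some v} ⊆ Pend from fun v h => h.1)
    simp only [N]
    omega
  have hpos : ∀ e, ∃ k : ℕ, (C.f X).SameCycle d0 e → k < per (C.f X) d0 ∧ el (C.f X) d0 k = e := by
    intro e
    by_cases h : (C.f X).SameCycle d0 e
    · obtain ⟨k, h1, h2⟩ := exists_el _ _ h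
      exact ⟨k, fun _ => ⟨h1, h2⟩⟩
    · exact ⟨0, fun h' => absurd h' h⟩
  choose pos hpos using hpos
  have hcor : ∀ n, ∃ k : ℕ, n ∈ N → k < per (C.f X) d0 ∧ C.M.tl (el (C.f X) d0 k) = some n := by
    intro n
    by_cases h : n ∈ N
    · obtain ⟨e, h1, h2⟩ := cor n h
      exact ⟨pos e, fun _ => ⟨(hpos e h1).1, by rw [(hpos e h1).2, h2]⟩⟩
    · exact ⟨0, fun h' => absurd h' h⟩
  choose cr hcr using hcor
  let Mk : V → Finset ℤ := fun n => if ∃ b, b ∉ X ∧ G.Adj n b then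
    (Finset.univ.filter (fun b => b ∉ X ∧ G.Adj n b)).image (fun b => (pos (C.gd n b) : ℤ))
    else {(cr n : ℤ)}
  let hd : ℤ → V := fun p => (C.M.tl (C.M.a (el (C.f X) d0 p.toNat))).getD x0
  have gpos : ∀ n ∈ N, ∀ b, b ∉ X → G.Adj n b → pos (C.gd n b) < per (C.f X) d0 ∧
      el (C.f X) d0 (pos (C.gd n b)) = C.gd n b ∧ hd (pos (C.gd n b)) = b := by
    intro n hn b hb h
    obtain ⟨a1, a2⟩ := hpos _ (hext _ _ (C.gd_ext (NX hn) hb h))
    exact ⟨a1, a2, by simp only [hd, Int.toNat_natCast, a2, C.gd2 _ _ h, Option.getD_some]⟩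
  have mk1 : ∀ n, (∃ b, b ∉ X ∧ G.Adj n b) → ∀ p, p ∈ Mk n ↔
      ∃ b, (b ∉ X ∧ G.Adj n b) ∧ (pos (C.gd n b) : ℤ) = p := by
    intro n h p; simp only [Mk, if_pos h]; simp
  have mk2 : ∀ n, ¬ (∃ b, b ∉ X ∧ G.Adj n b) → Mk n = {(cr n : ℤ)} := by
    intro n h; simp only [Mk, if_neg h]
  have mk3 : ∀ n ∈ N, ∀ p ∈ Mk n, ∃ r < per (C.f X) d0, p = r ∧
      C.M.tl (el (C.f X) d0 r) = some n := by
    intro n hn p hp
    by_cases h : ∃ b, b ∉ X ∧ G.Adj n b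
    · obtain ⟨b, hb, rfl⟩ := (mk1 n h p).1 hp
      obtain ⟨a1, a2, -⟩ := gpos n hn b hb.1 hb.2
      exact ⟨_, a1, rfl, by rw [a2, C.gd1 _ _ hb.2]⟩
    · rw [mk2 n h, Finset.mem_singleton] at hp
      exact ⟨_, (hcr n hn).1, hp, (hcr n hn).2⟩
  have mk4 : ∀ n ∈ N, ∀ p ∈ Mk n, hd p ∉ X → G.Adj n (hd p) → ∃ r < per (C.f X) d0, p = r ∧
      C.Ext X (el (C.f X) d0 r) (hd p) := by
    intro n hn p hp h1 h2
    obtain ⟨b, hb, rfl⟩ := (mk1 n ⟨_, h1, h2⟩ p).1 hp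
    obtain ⟨a1, a2, a3⟩ := gpos n hn b hb.1 hb.2
    exact ⟨_, a1, rfl, by rw [a2, a3]; exact C.gd_ext (NX hn) hb.1 hb.2⟩
  have bdN : ∀ y ∈ X \ N, ∀ s ∈ bd G (comp G (X \ N) y), s ∈ N := by
    rintro y hy s ⟨h1, x, hx, h2⟩
    have xX := comp_sub hy hx
    have sX : s ∈ X := by
      by_contra h; exact xX.2 (nb x xX.1 s h h2)
    by_contra h; exact h1 (comp_step hy hx h2 ⟨sX, h⟩)
  have oute := fun y hy u uX uY e he => C.out_eqv hc h0 NX ⟨x0, Or.inr (Or.inl rfl)⟩ cor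
    (y := y) hy (u := u) uX uY (e := e) he
  have exte : ∀ y ∈ X \ N, ∀ e b, C.Ext (comp G (X \ N) y) e b →
      C.Eqv (comp G (X \ N) y) d0 e := by
    rintro y hy e b ⟨x, hx, -, h2, h3, h4⟩
    exact (oute y hy b (NX (bdN y hy b ⟨h3, x, hx, h4⟩)) h3 _ h2).trans
      (eqv_a (by rw [h2]; simpa using h3)).symm
  have corb : ∀ y ∈ X \ N, ∀ e e' b b', C.Ext (comp G (X \ N) y) e b →
      C.Ext (comp G (X \ N) y) e' b' → (C.f (comp G (X \ N) y)).SameCycle e e' := by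
    intro y hy e e' b b' h h'
    refine C.orbit_child (conn_comp hy) ?_ ?_ ((exte y hy e b h).symm.trans (exte y hy e' b' h'))
    · obtain ⟨x, hx, k, -⟩ := h
      rw [k]; simpa
    · obtain ⟨x, hx, k, -⟩ := h'
      rw [k]; simpa
  refine ⟨{
    N := N, Mk := Mk, hd := hd, conn := hc, sub := NX, ne := ⟨x0, Or.inr (Or.inl rfl)⟩,
    card := ?_, nb := nb, mk_disj := ?_, ext := ?_, kind := ?_, mono := ?_, hd_inj := ?_, nc := ?_,
    three := ?_, child := ?_ }⟩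
  · exact Nc.trans hA
  · intro n hn n' hn' p hp hp'
    obtain ⟨r, -, r1, r2⟩ := mk3 n hn p hp
    obtain ⟨r', -, r1', r2'⟩ := mk3 n' hn' p hp'
    have : r = r' := by omega
    rw [this, r2'] at r2
    exact (Option.some.inj r2).symm
  · intro n hn b hb h
    exact ⟨_, (mk1 n ⟨b, hb, h⟩ _).2 ⟨b, ⟨hb, h⟩, rfl⟩, (gpos n hn b hb h).2.2⟩
  · intro n hn
    by_cases h : ∃ b, b ∉ X ∧ G.Adj n b
    · left
      refine ⟨?_, fun p hp => ?_⟩
      · obtain ⟨b, hb⟩ := id h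
        exact ⟨_, (mk1 n h _).2 ⟨b, hb, rfl⟩⟩
      · obtain ⟨b, hb, rfl⟩ := (mk1 n h p).1 hp
        rw [(gpos n hn b hb.1 hb.2).2.2]; exact hb
    · exact Or.inr ⟨⟨_, mk2 n h⟩, fun b h1 h2 => h ⟨b, h1, h2⟩⟩
  · intro n hn n' hn' p hp p' hp' hlt h1 h2 h1' h2'
    obtain ⟨r, -, rfl, r2⟩ := mk4 n hn p hp h1 h2
    obtain ⟨r', r0, rfl, r2'⟩ := mk4 n' hn' p' hp' h1' h2'
    exact hmono r r' _ _ (by omega) r0 r2 r2'
  · intro n hn p hp p' hp' h
    by_cases h' : ∃ b, b ∉ X ∧ G.Adj n b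
    · obtain ⟨b, hb, rfl⟩ := (mk1 n h' p).1 hp
      obtain ⟨b', hb', rfl⟩ := (mk1 n h' p').1 hp'
      rw [(gpos n hn b hb.1 hb.2).2.2, (gpos n hn b' hb'.1 hb'.2).2.2] at h
      rw [h]
    · rw [mk2 n h', Finset.mem_singleton] at hp hp'
      rw [hp, hp']
  · intro Z Z' z1 z2 c1 c2 dj n1 m1 n2 m2 n3 m3 n4 m4 k1 k2 k3 k4 p1 q1 p2 q2 p3 q3 p4 q4 l1 l2 l3
    obtain ⟨r1, -, rfl, t1⟩ := mk3 n1 k1 p1 q1
    obtain ⟨r2, -, rfl, t2⟩ := mk3 n2 k2 p2 q2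
    obtain ⟨r3, -, rfl, t3⟩ := mk3 n3 k3 p3 q3
    obtain ⟨r4, h4, rfl, t4⟩ := mk3 n4 k4 p4 q4
    exact C.nc_face h0 z1 z2 c1 c2 dj (k1 := r1) (k2 := r2) (k3 := r3) (k4 := r4) (by omega)
      (by omega) (by omega) h4 (by rw [t1]; simpa) (by rw [t2]; simpa) (by rw [t3]; simpa)
      (by rw [t4]; simpa)
  · intro y hy y' hy' hne s1 s2 s3 n12 n13 n23 b1 b2 b3 b1' b2' b3'
    have dj : Disjoint (comp G (X \ N) y) (comp G (X \ N) y') :=
      Set.disjoint_left.2 fun x h1 h2 => hne (comp_eq_of_mem h1 h2)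
    obtain ⟨g0, hg0⟩ : ∃ g0, C.Ext (comp G (X \ N) y) g0 s1 := by
      obtain ⟨h1, x, hx, h2⟩ := b1
      exact ⟨_, C.gd_ext hx h1 h2⟩
    have g0Y : C.M.tl g0 ∈ o (comp G (X \ N) y) := by
      obtain ⟨x, hx, h, -⟩ := hg0
      rw [h]; simpa
    have loc : ∀ s ∈ bd G (comp G (X \ N) y), ∃ j < per (C.f (comp G (X \ N) y)) g0,
        C.M.tl (C.M.a (el (C.f (comp G (X \ N) y)) g0 j)) = some s := by
      rintro s ⟨h1, x, hx, h2⟩
      obtain ⟨j, j1, j2⟩ := exists_el _ _ (corb y hy g0 _ _ _ hg0 (C.gd_ext hx h1 h2))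
      exact ⟨j, j1, by rw [j2, C.gd2 _ _ h2]⟩
    have tf := fun {j1 j2 j3 : ℕ} h12 h23 h3 {s1 s2 s3 : V} n12 n13 n23
        (b1 : s1 ∈ bd G (comp G (X \ N) y)) (b2 : s2 ∈ bd G (comp G (X \ N) y))
        (b3 : s3 ∈ bd G (comp G (X \ N) y)) b1' b2' b3' x1 x2 x3 =>
      C.three_face (conn_comp hy) (conn_comp hy') (fun x hx => (comp_sub hy hx).1)
        (fun x hx => (comp_sub hy' hx).1) dj h0 g0Y (j1 := j1) (j2 := j2) (j3 := j3) h12 h23 h3
        (s1 := s1) (s2 := s2) (s3 := s3) n12 n13 n23 (NX (bdN y hy _ b1)) (NX (bdN y hy _ b2))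
        (NX (bdN y hy _ b3)) b1.1 b2.1 b3.1 b1' b2' b3' x1 x2 x3 (cor _ (bdN y hy _ b1))
        (cor _ (bdN y hy _ b2)) (cor _ (bdN y hy _ b3))
    obtain ⟨j1, l1, x1⟩ := loc s1 b1
    obtain ⟨j2, l2, x2⟩ := loc s2 b2
    obtain ⟨j3, l3, x3⟩ := loc s3 b3
    have d12 : j1 ≠ j2 := fun e => n12 (by rw [e, x2] at x1; exact (Option.some.inj x1).symm)
    have d13 : j1 ≠ j3 := fun e => n13 (by rw [e, x3] at x1; exact (Option.some.inj x1).symm)
    have d23 : j2 ≠ j3 := fun e => n23 (by rw [e, x3] at x2; exact (Option.some.inj x2).symm)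
    rcases lt_or_gt_of_ne d12 with o12 | o12 <;> rcases lt_or_gt_of_ne d13 with o13 | o13 <;>
      rcases lt_or_gt_of_ne d23 with o23 | o23
    · exact tf o12 o23 l3 n12 n13 n23 b1 b2 b3 b1' b2' b3' x1 x2 x3
    · exact tf o13 o23 l2 n13 n12 n23.symm b1 b3 b2 b1' b3' b2' x1 x3 x2
    · omega
    · exact tf o13 o12 l2 n13.symm n23.symm n12 b3 b1 b2 b3' b1' b2' x3 x1 x2
    · exact tf o12 o13 l3 n12.symm n23 n13 b2 b1 b3 b2' b1' b3' x2 x1 x3
    · omega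
    · exact tf o23 o13 l1 n23 n12.symm n13.symm b2 b3 b1 b2' b3' b1' x2 x3 x1
    · exact tf o23 o12 l1 n23.symm n13.symm n12.symm b3 b2 b1 b3' b2' b1' x3 x2 x1
  · intro y hy rep hrep
    set Y := comp G (X \ N) y with hY
    have YX : Y ⊆ X \ N := comp_sub hy
    have hne : (bd G Y).Nonempty := by
      by_contra hn
      have : X ⊆ Y := hc.sub_of_closed hy.1 (self_mem_comp _ y) fun a ha b hab _ _ => by
        by_contra hb; exact hn ⟨b, hb, a, ha, hab⟩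
      exact (YX (this hx0)).2 (Or.inr (Or.inl rfl))
    obtain ⟨g0, b0, hg0, hm⟩ := C.child_mono (conn_comp hy) (fun x hx => (YX hx).1) h0
      (corb y hy) hne rep
      (fun s hs => ⟨NX (bdN y hy s hs), mk3 s (bdN y hy s hs) _ (hrep s hs)⟩)
    refine hch _ _ ⟨conn_comp hy, g0, Y ∩ Pend, rank, ?_, fun e b h => corb y hy _ _ _ _ hg0 h, hm,
      inter_subset_left, ?_, ?_, ?_, ?_⟩
    · obtain ⟨x, hx, h, -⟩ := hg0
      rw [h]; simpa
    · exact (ncard_le_ncard inter_subset_right).trans Pc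
    · exact (ncard_le_ncard (fun s hs => bdN y hy s hs)).trans Nc
    · rintro v ⟨vY, hv⟩
      obtain ⟨-, r2, d, d1, d2 | ⟨u, hu, u1, e, e1, e2⟩⟩ := Pd v hv
      · exact absurd (Or.inl ⟨hv, d, C.orbit_child hc h0 (by rw [d1]; simpa using PX hv) d2, d1⟩)
          (YX vY).2
      · have := (Pd u hu).1
        have e3 := e2.mono fun x hx => (YX hx).1
        refine ⟨by omega, r2, d, d1, ?_⟩
        by_cases uY : u ∈ Y
        · exact Or.inr ⟨u, ⟨uY, hu⟩, u1, e, e1, e3⟩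
        · exact Or.inl ((exte y hy _ _ hg0).symm.trans
            ((oute y hy u (PX hu) uY e e1).trans e3.symm))
    · rintro y' ⟨h1, h2⟩
      have hyP : y' ∈ X \ Pend := ⟨(YX h1).1, fun h => h2 ⟨h1, h⟩⟩
      set U := comp G (X \ Pend) y' with hU
      have UX : U ⊆ X \ Pend := comp_sub hyP
      have YU : comp G (Y \ (Y ∩ Pend)) y' ⊆ U :=
        comp_mono (X := Y \ (Y ∩ Pend)) (Y := X \ Pend)
          (fun x hx => ⟨(YX hx.1).1, fun h => hx.2 ⟨hx.1, h⟩⟩) y'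
      have a1 : bd G (comp G (Y \ (Y ∩ Pend)) y') ⊆
          bd G U ∪ insert x0 {x | ∃ b ∈ bd G U, G.Adj x b} := by
        rintro s ⟨s1, x, hx, h⟩
        by_cases sU : s ∈ U
        · right
          by_cases sN : s ∈ N
          · rcases sN with k | rfl | ⟨-, b, hb, k⟩
            · exact absurd k.1 (UX sU).2
            · exact mem_insert _ _
            · exact Or.inr ⟨b, ⟨fun h => hb (UX h).1, s, sU, k⟩, k⟩
          · have xY := (comp_sub (X := Y \ (Y ∩ Pend)) ⟨h1, h2⟩ hx).1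
            exact absurd (comp_step (X := Y \ (Y ∩ Pend)) ⟨h1, h2⟩ hx h
              ⟨comp_step hy xY h ⟨(UX sU).1, sN⟩, fun k => (UX sU).2 k.2⟩) s1
        · exact Or.inl ⟨sU, x, YU hx, h⟩
      have a2 := ncard_le_ncard a1
      have a3 := ncard_union_le (bd G U) (insert x0 {x | ∃ b ∈ bd G U, G.Adj x b})
      have a4 := ncard_insert_le x0 {x | ∃ b ∈ bd G U, G.Adj x b}
      have a5 := ncard_nb hΔ (bd G U)
      have a6 : (bd G U).ncard ≤ c := hcell y' hyP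
      have a7 : (bd G U).ncard * Δ ≤ c * Δ := Nat.mul_le_mul_right _ a6
      omega

end Ctx

end Pool.Agent.P.MP_845aff_co.TW
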