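import Pool.Agent.P.MP_845aff_co.Peel

/-! Closest minimum vertex cuts form a laminar family. -/

namespace Pool.Agent.P.MP_845aff_co.TW

open Set

variable {V : Type} [Finite V] {G : SimpleGraph V}

lemma ncard_N (A : Set V) : (A ∪ bd G A).ncard = A.ncard + (bd G A).ncard :=
  ncard_union_eq (Set.disjoint_left.2 fun _ h h' => h'.1 h)

lemma submod (A B : Set V) :
    (bd G (A ∪ B)).ncard + (bd G (A ∩ B)).ncard ≤ (bd G A).ncard + (bd G B).ncard := by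
  have h1 : (A ∪ B) ∪ bd G (A ∪ B) ⊆ (A ∪ bd G A) ∪ (B ∪ bd G B) := by
    rintro x ((h | h) | ⟨h, y, hy | hy, e⟩)
    exacts [Or.inl (Or.inl h), Or.inr (Or.inl h), Or.inl (Or.inr ⟨fun k => h (Or.inl k), y, hy, e⟩),
      Or.inr (Or.inr ⟨fun k => h (Or.inr k), y, hy, e⟩)]
  have h2 : (A ∩ B) ∪ bd G (A ∩ B) ⊆ (A ∪ bd G A) ∩ (B ∪ bd G B) := by
    rintro x (h | ⟨-, y, hy, e⟩)
    · exact ⟨Or.inl h.1, Or.inl h.2⟩
    · exact ⟨(em (x ∈ A)).imp id fun k => ⟨k, y, hy.1, e⟩,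
        (em (x ∈ B)).imp id fun k => ⟨k, y, hy.2, e⟩⟩
  have a1 := ncard_le_ncard h1
  have a2 := ncard_le_ncard h2
  have a3 := ncard_union_add_ncard_inter (A ∪ bd G A) (B ∪ bd G B)
  have a4 := ncard_union_add_ncard_inter A B
  rw [ncard_N] at a1 a2
  rw [ncard_N, ncard_N] at a3
  omega

omit [Finite V] in
lemma bd_diff (A B : Set V) : bd G (A \ (B ∪ bd G B)) ⊆ (bd G A \ B) ∪ (bd G B ∩ A) := by
  rintro x ⟨h, y, hy, e⟩
  have xB : x ∉ B := fun k => hy.2 ((em (y ∈ B)).imp id fun k' => ⟨k', x, k, e.symm⟩)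
  by_cases xA : x ∈ A
  · right
    by_contra hn
    exact h ⟨xA, fun k => k.elim xB fun k => hn ⟨k, xA⟩⟩
  · exact Or.inl ⟨⟨xA, y, hy.1, e⟩, xB⟩

lemma posimod (A B : Set V) : (bd G (A \ (B ∪ bd G B))).ncard + (bd G (B \ (A ∪ bd G A))).ncard
    ≤ (bd G A).ncard + (bd G B).ncard := by
  have a1 := (ncard_le_ncard (bd_diff (G := G) A B)).trans (ncard_union_le _ _)
  have a2 := (ncard_le_ncard (bd_diff (G := G) B A)).trans (ncard_union_le _ _)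
  have a3 := ncard_inter_add_ncard_diff_eq_ncard (bd G A) B
  have a4 := ncard_inter_add_ncard_diff_eq_ncard (bd G B) A
  omega

/-- admissible regions -/
def Adm (G : SimpleGraph V) (Out Dp R : Set V) : Prop :=
  (∀ x ∈ R, x ∉ Out) ∧ ∀ x ∈ bd G R, x ∉ Out ∧ x ∉ Dp

theorem laminar (Out Dp : Set V) (s : ℕ)
    (h : ∀ v ∈ Dp, ∃ R, Adm G Out Dp R ∧ v ∈ R ∧ (bd G R).ncard ≤ s) :
    ∃ 𝓜 : Set (Set V), (∀ R ∈ 𝓜, Adm G Out Dp R ∧ Conn G R ∧ R.Nonempty ∧ (bd G R).ncard ≤ s ∧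
        ∀ u ∈ bd G R, ∃ o ∈ Out, Relation.ReflTransGen (rel G Rᶜ) u o) ∧
      (∀ R ∈ 𝓜, ∀ R' ∈ 𝓜, ∀ x ∈ R, x ∈ R' ∪ bd G R' → R = R') ∧ ∀ v ∈ Dp, ∃ R ∈ 𝓜, v ∈ R := by
  have hex : ∀ v, ∃ R, v ∈ Dp → (Adm G Out Dp R ∧ v ∈ R) ∧
      (∀ R', Adm G Out Dp R' → v ∈ R' → (bd G R).ncard ≤ (bd G R').ncard) ∧
      ∀ R', Adm G Out Dp R' → v ∈ R' → (bd G R').ncard ≤ (bd G R).ncard → R' ⊆ R → R ⊆ R' := by
    intro v
    by_cases hv : v ∈ Dp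
    swap
    · exact ⟨∅, fun k => absurd k hv⟩
    obtain ⟨R0, a, b, -⟩ := h v hv
    obtain ⟨R1, c1, c2⟩ := exists_min_image {R | Adm G Out Dp R ∧ v ∈ R}
      (fun R => (bd G R).ncard) (toFinite _) ⟨R0, a, b⟩
    obtain ⟨R, ⟨d1, d2⟩, d3⟩ := exists_min_image
      {R | (Adm G Out Dp R ∧ v ∈ R) ∧ (bd G R).ncard ≤ (bd G R1).ncard}
      (fun R => R.ncard) (toFinite _) ⟨R1, c1, le_rfl⟩
    exact ⟨R, fun _ => ⟨d1, fun R' k1 k2 => d2.trans (c2 R' ⟨k1, k2⟩), fun R' k1 k2 k3 k4 =>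
      (eq_of_subset_of_ncard_le k4 (d3 R' ⟨⟨k1, k2⟩, k3.trans d2⟩)).ge⟩⟩
  choose R hR using hex
  have nest : ∀ v ∈ Dp, ∀ w ∈ Dp, v ∈ R w → R v ⊆ R w := by
    intro v hv w hw k
    obtain ⟨⟨a1, a2⟩, a3, a4⟩ := hR v hv
    obtain ⟨⟨b1, b2⟩, b3, -⟩ := hR w hw
    have i1 : Adm G Out Dp (R v ∩ R w) := ⟨fun x hx => a1.1 x hx.1, by
      rintro x ⟨h1, y, hy, e⟩
      by_cases k : x ∈ R v
      exacts [b1.2 x ⟨fun k' => h1 ⟨k, k'⟩, y, hy.2, e⟩, a1.2 x ⟨k, y, hy.1, e⟩]⟩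
    have i2 : Adm G Out Dp (R v ∪ R w) := ⟨fun x hx => hx.elim (a1.1 x) (b1.1 x), by
      rintro x ⟨h1, y, hy | hy, e⟩
      exacts [a1.2 x ⟨fun k => h1 (Or.inl k), y, hy, e⟩, b1.2 x ⟨fun k => h1 (Or.inr k), y, hy, e⟩]⟩
    have c1 := b3 _ i2 (Or.inr b2)
    have c2 := submod (G := G) (R v) (R w)
    exact (a4 _ i1 ⟨a2, k⟩ (by omega) inter_subset_left).trans inter_subset_right
  have far : ∀ v ∈ Dp, ∀ w ∈ Dp, v ∉ R w → w ∉ R v → ∀ x ∈ R v, x ∉ R w ∪ bd G (R w) := by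
    intro v hv w hw k k'
    obtain ⟨⟨a1, a2⟩, -, a4⟩ := hR v hv
    obtain ⟨⟨b1, b2⟩, b3, -⟩ := hR w hw
    have adm : ∀ A B, Adm G Out Dp A → Adm G Out Dp B → Adm G Out Dp (A \ (B ∪ bd G B)) :=
      fun A B hA hB => ⟨fun x hx => hA.1 x hx.1, fun x hx =>
        (bd_diff A B hx).elim (fun k => hA.2 x k.1) fun k => hB.2 x k.1⟩
    have c1 := b3 _ (adm _ _ b1 a1) ⟨b2, fun e => e.elim k' fun e => (a1.2 w e).2 hw⟩
    have c2 := posimod (G := G) (R v) (R w)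
    exact fun x hx => (a4 _ (adm _ _ a1 b1) ⟨a2, fun e => e.elim k fun e => (b1.2 v e).2 hv⟩
      (by omega) diff_subset hx).2
  refine ⟨{Q | Maximal (fun Q => ∃ v ∈ Dp, Q = R v) Q}, ?_, ?_, ?_⟩
  · rintro _ ⟨⟨v, hv, rfl⟩, -⟩
    obtain ⟨⟨a1, a2⟩, a3, a4⟩ := hR v hv
    obtain ⟨R0, b1, b2, b3⟩ := h v hv
    refine ⟨a1, ?_, ⟨v, a2⟩, (a3 R0 b1 b2).trans b3, ?_⟩
    · have s1 : comp G (R v) v ⊆ R v := comp_sub a2
      have s2 : bd G (comp G (R v) v) ⊆ bd G (R v) := by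
        rintro x ⟨h1, y, hy, e⟩
        exact ⟨fun k => h1 (comp_step a2 hy e k), y, s1 hy, e⟩
      have := a4 _ ⟨fun x hx => a1.1 x (s1 hx), fun x hx => a1.2 x (s2 hx)⟩ (self_mem_comp _ v)
        (ncard_le_ncard s2) s1
      rw [this.antisymm s1]
      exact conn_comp a2
    · let O : Set V := {x | ∃ o ∈ Out, Relation.ReflTransGen (rel G (bd G (R v))ᶜ) o x}
      have OR : ∀ x ∈ O, x ∉ R v ∧ x ∉ bd G (R v) := by
        rintro x ⟨o, ho, hx⟩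
        induction hx with
        | refl => exact ⟨fun k => a1.1 o k ho, fun k => (a1.2 o k).1 ho⟩
        | tail _ e ih => exact ⟨fun k => ih.2 ⟨ih.1, _, k, e.1.symm⟩, e.2.2⟩
      have bO : bd G O ⊆ bd G (R v) := by
        rintro x ⟨h1, y, hy, e⟩
        by_contra hn
        obtain ⟨o, ho, k⟩ := id hy
        exact h1 ⟨o, ho, k.tail ⟨e, (OR y hy).2, hn⟩⟩
      have b4 : bd G (O ∪ bd G O)ᶜ ⊆ bd G O := by
        rintro x ⟨h1, y, hy, e⟩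
        rcases not_not.1 h1 with k | k
        · exact absurd ((em (y ∈ O)).imp id fun k' => ⟨k', x, k, e.symm⟩) hy
        · exact k
      have c1 := a3 (O ∪ bd G O)ᶜ ⟨fun x hx k => hx (Or.inl ⟨x, k, .refl⟩),
        fun x hx => a1.2 x (bO (b4 hx))⟩
        (fun k => k.elim (fun k => (OR v k).1 a2) fun k => (bO k).1 a2)
      have c2 := eq_of_subset_of_ncard_le bO (c1.trans (ncard_le_ncard b4))
      intro u hu
      obtain ⟨-, y, hy, e⟩ := c2 ▸ hu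
      obtain ⟨o, ho, k⟩ := id hy
      refine ⟨o, ho, .head ⟨e.symm, hu.1, (OR y hy).1⟩ (rt_symm ?_)⟩
      clear e hy
      induction k with
      | refl => exact .refl
      | @tail a b k e ih => exact ih.tail ⟨e.1, (OR a ⟨o, ho, k⟩).1, (OR b ⟨o, ho, k.tail e⟩).1⟩
  · rintro _ ⟨⟨v, hv, rfl⟩, m1⟩ _ ⟨⟨w, hw, rfl⟩, m2⟩ x hx hx'
    by_cases k : v ∈ R w
    · exact (nest v hv w hw k).antisymm (m1 ⟨w, hw, rfl⟩ (nest v hv w hw k))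
    by_cases k' : w ∈ R v
    · exact (m2 ⟨v, hv, rfl⟩ (nest w hw v hv k')).antisymm (nest w hw v hv k')
    exact absurd hx' (far v hv w hw k k' x hx)
  · intro v hv
    obtain ⟨Q, h1, h2⟩ := Finite.exists_le_maximal (p := fun Q => ∃ v ∈ Dp, Q = R v)
      (a := R v) ⟨v, hv, rfl⟩
    exact ⟨Q, h2, h1 (hR v hv).1.2⟩

end Pool.Agent.P.MP_845aff_co.TW
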