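import Pool.Agent.P.MP_845aff_co.Defs

namespace Pool.Agent.P.MP_845aff_co.TW

/-- `G` has a tree decomposition of width at most `t`: a tree `T` and bags of at most `t + 1`
vertices such that every edge lies in a bag and the nodes whose bags contain a given vertex
form a nonempty connected subgraph of `T`. -/
def TreewidthLE {V : Type} (G : SimpleGraph V) (t : ℕ) : Prop :=
  ∃ (ι : Type) (T : SimpleGraph ι) (B : ι → Finset V), T.IsTree ∧ (∀ i, (B i).card ≤ t + 1) ∧
    (∀ u v, G.Adj u v → ∃ i, u ∈ B i ∧ v ∈ B i) ∧ ∀ v, (T.induce {i | v ∈ B i}).Connected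

end Pool.Agent.P.MP_845aff_co.TW
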