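import Pool.Agent.P.MP_845aff_co.TW.Defs
import Pool.Agent.P.MP_845aff_co.Peel

namespace Pool.Agent.P.MP_845aff_co.TW

open SimpleGraph

theorem exists_path_via {ι : Type} (T : SimpleGraph ι) (hT : T.IsTree) (S : Set ι)
    (hS : (T.induce S).Connected) (ρ t x : ι) (ht : t ∈ S) (hx : x ∈ S)
    (hmin : ∀ y ∈ S, T.dist t ρ ≤ T.dist y ρ) :
    ∃ (p : T.Walk x t) (W : T.Walk t ρ), (p.append W).IsPath ∧ (∀ y ∈ p.support, y ∈ S) ∧
      W.length = T.dist t ρ := by
  classical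
  obtain ⟨p0, hp0⟩ := (hS.preconnected ⟨x, hx⟩ ⟨t, ht⟩).exists_isPath
  obtain ⟨W, hWp, hWl⟩ := (hT.connected.preconnected t ρ).exists_path_of_dist
  let f : T.induce S ↪g T := Embedding.induce S
  obtain ⟨p, hpp, hsupp⟩ : ∃ p : T.Walk x t, p.IsPath ∧ ∀ y ∈ p.support, y ∈ S := by
    refine ⟨p0.map f.toHom, Walk.IsPath.map f.injective hp0, ?_⟩
    intro y hy
    have hy' : y ∈ (p0.map f.toHom).support := hy
    rw [Walk.support_map, List.mem_map] at hy'
    obtain ⟨z, _, rfl⟩ := hy'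
    exact z.2
  refine ⟨p, W, ?_, hsupp, hWl⟩
  rw [Walk.isPath_def, Walk.support_append, List.nodup_append]
  refine ⟨hpp.support_nodup, hWp.support_nodup.sublist (List.tail_sublist _), ?_⟩
  intro a ha b hb hab
  subst hab
  have haS := hsupp a ha
  have hle := hmin a haS
  cases W with
  | nil => simp at hb
  | cons h W' =>
    simp only [Walk.support_cons, List.tail_cons] at hb
    have h1 : T.dist a _ ≤ (W'.dropUntil a hb).length := T.dist_le _
    have h2 := W'.length_dropUntil_le_length hb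
    simp only [Walk.length_cons] at hWl
    omega

/-- Helly property of subtrees -/
theorem helly {ι W : Type} [Finite W] [Nonempty W] (T : SimpleGraph ι) (hT : T.IsTree)
    (S : W → Set ι) (hS : ∀ v, (T.induce (S v)).Connected) (h : ∀ u v, ∃ x ∈ S u, x ∈ S v) :
    ∃ x, ∀ v, x ∈ S v := by
  classical
  obtain ⟨ρ⟩ := hT.connected.nonempty
  have hex : ∀ v, ∃ t ∈ S v, ∀ y ∈ S v, T.dist t ρ ≤ T.dist y ρ := by
    intro v
    obtain ⟨⟨z, hz⟩⟩ := (hS v).nonempty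
    obtain ⟨t, ht, hmin⟩ := (measure (fun i => T.dist i ρ)).wf.has_min (S v) ⟨z, hz⟩
    exact ⟨t, ht, fun y hy => not_lt.mp (hmin y hy)⟩
  choose top htop hmin using hex
  obtain ⟨u, hu⟩ := Finite.exists_max fun v => T.dist (top v) ρ
  refine ⟨top u, fun v => ?_⟩
  obtain ⟨x, hxu, hxv⟩ := h u v
  obtain ⟨p, Wp, hp, hps, l1⟩ :=
    exists_path_via T hT (S u) (hS u) ρ (top u) x (htop u) hxu (hmin u)
  obtain ⟨q, Wq, hq, hqs, l2⟩ :=
    exists_path_via T hT (S v) (hS v) ρ (top v) x (htop v) hxv (hmin v)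
  have heq : p.append Wp = q.append Wq := by
    have := (hT.isAcyclic.subsingleton_path x ρ).elim ⟨_, hp⟩ ⟨_, hq⟩
    exact congrArg Subtype.val this
  have h1 : (p.append Wp).getVert p.length = top u := by
    rw [Walk.getVert_append]; simp
  have h2 : (q.append Wq).getVert q.length = top v := by
    rw [Walk.getVert_append]; simp
  have h3 := congrArg Walk.length heq
  rw [Walk.length_append, Walk.length_append, l1, l2] at h3
  have h4 := hu v
  rcases (show p.length ≤ q.length by omega).lt_or_eq with h | h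
  · rw [heq, Walk.getVert_append, if_pos h] at h1
    rw [← h1]
    exact hqs _ (q.getVert_mem_support _)
  · rw [heq, h, h2] at h1
    rw [← h1]
    exact htop v

/-- a family of pairwise intersecting connected sets is met by one bag -/
theorem bramble_hit {V : Type} [Finite V] {G : SimpleGraph V} {t : ℕ} (h : TreewidthLE G t)
    (F : Set (Set V)) (hne : F.Nonempty) (hc : ∀ P ∈ F, Conn G P)
    (hi : ∀ P ∈ F, ∀ Q ∈ F, ∃ x ∈ P, x ∈ Q) :
    ∃ β : Finset V, β.card ≤ t + 1 ∧ ∀ P ∈ F, ∃ v ∈ β, v ∈ P := by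
  obtain ⟨ι, T, B, hT, h1, h2, h3⟩ := h
  have : Nonempty F := hne.to_subtype
  obtain ⟨x, hx⟩ := helly T hT (fun P : F => {i | ∃ v ∈ B i, v ∈ P.1}) (by
    rintro ⟨P, hP⟩
    obtain ⟨v0, hv0, -⟩ := hi P hP P hP
    obtain ⟨⟨i0, hi0⟩⟩ := (h3 v0).nonempty
    have one : ∀ v (hv : v ∈ P) i j (hi : v ∈ B i) (hj : v ∈ B j),
        (T.induce {i | ∃ v ∈ B i, v ∈ P}).Reachable ⟨i, v, hi, hv⟩ ⟨j, v, hj, hv⟩ :=
      fun v hv i j hi hj => ((h3 v).preconnected ⟨i, hi⟩ ⟨j, hj⟩).map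
        (T.induceHomOfLE (s := {i | v ∈ B i}) (s' := {i | ∃ v ∈ B i, v ∈ P})
          fun i hi => ⟨v, hi, hv⟩).toHom
    have key : ∀ v, Relation.ReflTransGen (rel G P) v0 v → ∀ (hv : v ∈ P) j (hj : v ∈ B j),
        (T.induce {i | ∃ v ∈ B i, v ∈ P}).Reachable ⟨i0, v0, hi0, hv0⟩ ⟨j, v, hj, hv⟩ := by
      intro v hv
      induction hv with
      | refl => exact fun hv j hj => one v0 hv i0 j hi0 hj
      | @tail a b _ hab ih =>
        intro hv j hj
        obtain ⟨i, ia, ib⟩ := h2 a b hab.1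
        exact (ih hab.2.1 i ia).trans (one b hv i j ib hj)
    refine (connected_iff_exists_forall_reachable _).2 ⟨⟨i0, v0, hi0, hv0⟩, ?_⟩
    rintro ⟨j, v, hj, hv⟩
    exact key v (hc P hP v0 hv0 v hv) hv j hj) (by
    rintro ⟨P, hP⟩ ⟨Q, hQ⟩
    obtain ⟨v, h4, h5⟩ := hi P hP Q hQ
    obtain ⟨⟨i, hi⟩⟩ := (h3 v).nonempty
    exact ⟨i, ⟨v, hi, h4⟩, v, hi, h5⟩)
  exact ⟨B x, h1 x, fun P hP => hx ⟨P, hP⟩⟩

end Pool.Agent.P.MP_845aff_co.TW
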