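import Pool.Agent.P.MP_845aff_co.TW.Comb
import Pool.Agent.P.MP_845aff_co.TW.Helly
import Pool.Agent.P.MP_845aff_co.TW.Cut

/-! Radial levels in a piece, nested cycles and small cuts. -/

namespace Pool.Agent.P.MP_845aff_co.TW

open PMap Set

variable {V D : Type} [DecidableEq V] [Fintype D] {G : SimpleGraph V}

lemma conn_union {A B : Set V} (hA : Conn G A) (hB : Conn G B) {x : V} (h1 : x ∈ A) (h2 : x ∈ B) :
    Conn G (A ∪ B) := by
  have key : ∀ y ∈ A ∪ B, Relation.ReflTransGen (rel G (A ∪ B)) x y := by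
    rintro y (h | h)
    exacts [rt_mono subset_union_left (hA x h1 y h), rt_mono subset_union_right (hB x h2 y h)]
  exact fun a ha b hb => (rt_symm (key a ha)).trans (key b hb)

lemma cyc_ind (f : Equiv.Perm D) {d : D} (P : D → Prop) (h0 : P d)
    (h : ∀ e, f.SameCycle d e → P e → P (f e)) {e : D} (he : f.SameCycle d e) : P e := by
  obtain ⟨k, rfl⟩ := he.exists_nat_pow_eq
  clear he
  induction k with
  | zero => exact h0
  | succ k ih => rw [pow_succ', Equiv.Perm.mul_apply]; exact h _ ⟨k, by simp⟩ ih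

namespace Ctx

variable (C : Ctx G D)

lemma f_in {X : Set V} {d : D} (h1 : C.M.tl d ∈ o X) (h2 : C.M.tl (C.M.a d) ∈ o X) :
    C.f X d = C.M.s (C.M.a d) := by rw [fX_apply, C.M.aX_in h1 h2]

lemma f_out {X : Set V} {d : D} (h2 : C.M.tl (C.M.a d) ∉ o X) : C.f X d = C.M.s d := by
  rw [fX_apply, C.M.aX_out fun h => h2 h.2]

lemma cyc_f (X : Set V) (d : D) : (C.f X).SameCycle d (C.f X d) := ⟨1, by simp⟩

lemma exit_adj {Q : Set V} {g : D} (h1 : C.M.tl g ∈ o Q) (h2 : C.M.tl (C.M.a g) ∉ o Q) :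
    ∃ x ∈ Q, ∃ y ∉ Q, C.M.tl g = some x ∧ C.M.tl (C.M.a g) = some y ∧ G.Adj x y := by
  rcases C.real g with h | ⟨u, v, a, b, c⟩
  · rw [h] at h2; exact absurd h1 h2
  · exact ⟨u, by simpa [a] using h1, v, by simpa [b] using h2, a, b, c⟩

lemma orbit_walk {Q S : Set V} {d : D} (hS : ∀ e, (C.f Q).SameCycle d e → C.M.tl e ∈ o S)
    {x : V} (hx : C.M.tl d = some x) {e : D} (he : (C.f Q).SameCycle d e) :
    ∀ y, C.M.tl e = some y → Relation.ReflTransGen (rel G S) x y := by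
  refine cyc_ind (C.f Q) (fun e => ∀ y, C.M.tl e = some y → Relation.ReflTransGen (rel G S) x y)
    (fun y h => ?_) (fun e he ih y h => ?_) he
  · rw [hx] at h; rw [Option.some.inj h]
  · have h1 := hS e he
    have h2 := hS _ (he.trans (C.cyc_f Q e))
    rw [h] at h2
    rw [fX_apply, C.M.tl_s] at h
    by_cases k : C.M.tl e ∈ o Q ∧ C.M.tl (C.M.a e) ∈ o Q
    · rw [C.M.aX_in k.1 k.2] at h
      rcases C.real e with r | ⟨u, v, a, b, c⟩
      · exact ih y (r ▸ h)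
      · obtain rfl : v = y := Option.some.inj (b.symm.trans h)
        exact (ih u a).tail ⟨c, by simpa [a] using h1, by simpa using h2⟩
    · rw [C.M.aX_out k] at h
      exact ih y h

lemma first_exit {Q X : Set V} (hQ : Q ⊆ X) {d g : D} (hd : C.M.tl d ∈ o Q)
    (h : (C.f Q).SameCycle d g) (hg : C.M.tl (C.M.a g) ∉ o Q) :
    ∃ g', (C.f X).SameCycle d g' ∧ C.M.tl g' ∈ o Q ∧ C.M.tl (C.M.a g') ∉ o Q := by
  by_contra hn
  push Not at hn
  refine hg (hn g ?_ (C.M.tl_of_cyc hd h))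
  refine cyc_ind (C.f Q) (fun e => (C.f X).SameCycle d e) (.refl _ _) (fun e he ih => ?_) h
  have h1 := C.M.tl_of_cyc hd he
  have h2 := hn e ih h1
  rw [C.f_in h1 h2, ← C.f_in (o_mono hQ h1) (o_mono hQ h2)]
  exact ih.trans (C.cyc_f X e)

lemma face_exit {R X : Set V} {d e : D} (hd : C.M.tl d ∈ o R) (h : (C.f X).SameCycle d e)
    (he : C.M.tl e ∉ o R) :
    ∃ g, (C.f X).SameCycle d g ∧ C.M.tl g ∈ o R ∧ C.M.tl (C.M.a g) ∉ o R := by
  by_contra hn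
  push Not at hn
  refine he (cyc_ind (C.f X) (fun e => C.M.tl e ∈ o R) hd (fun e he ih => ?_) h)
  rw [fX_apply, C.M.tl_s]
  by_cases k : C.M.tl e ∈ o X ∧ C.M.tl (C.M.a e) ∈ o X
  · rw [C.M.aX_in k.1 k.2]; exact hn e he ih
  · rwa [C.M.aX_out k]

/-- faces within radial distance `n` of the outer face, through vertices of `A` -/
def FN (X : Set V) (d0 : D) (A : Set V) : ℕ → D → Prop
  | 0, d => (C.f X).SameCycle d0 d
  | n + 1, d => FN X d0 A n d ∨ ∃ e e', FN X d0 A n e ∧ C.M.tl e ∈ o A ∧ C.M.tl e' = C.M.tl e ∧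
      (C.f X).SameCycle e' d

variable {C} {X A : Set V} {d0 : D}

lemma FN.cyc {n : ℕ} {d e : D} (h : C.FN X d0 A n d) (he : (C.f X).SameCycle d e) :
    C.FN X d0 A n e := by
  induction n with
  | zero => exact Equiv.Perm.SameCycle.trans h he
  | succ n ih =>
    rcases h with h | ⟨a, b, h1, h2, h3, h4⟩
    exacts [Or.inl (ih h), Or.inr ⟨a, b, h1, h2, h3, h4.trans he⟩]

lemma FN.mono {n m : ℕ} {d : D} (h : C.FN X d0 A n d) (hm : n ≤ m) : C.FN X d0 A m d := by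
  induction m, hm using Nat.le_induction with
  | base => exact h
  | succ m _ ih => exact Or.inl ih

lemma FN.at {n : ℕ} {e e' : D} (h : C.FN X d0 A n e) (h1 : C.M.tl e ∈ o A)
    (h2 : C.M.tl e' = C.M.tl e) : C.FN X d0 A (n + 1) e' := Or.inr ⟨e, e', h, h1, h2, .refl _ _⟩

lemma FN.mem (h0 : C.M.tl d0 ∈ o X) {n : ℕ} {d : D} (h : C.FN X d0 A n d) : C.M.tl d ∈ o X := by
  induction n generalizing d with
  | zero => exact C.M.tl_of_cyc h0 h
  | succ n ih =>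
    rcases h with h | ⟨a, b, h1, -, h3, h4⟩
    exacts [ih h, C.M.tl_of_cyc (h3 ▸ ih h1) h4]

variable (C X d0)

/-- radial level of a vertex -/
noncomputable def lev (v : V) : ℕ := sInf {n | ∃ d, C.M.tl d = some v ∧ C.FN X d0 univ n d}

/-- the standing assumptions on a piece -/
structure Fr : Prop where
  conn : Conn G X
  h0 : C.M.tl d0 ∈ o X
  ext : ∀ e b, C.Ext X e b → (C.f X).SameCycle d0 e

variable {C X d0}

lemma lev_le {n : ℕ} {d : D} {v : V} (h : C.FN X d0 univ n d) (hd : C.M.tl d = some v) :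
    C.lev X d0 v ≤ n := Nat.sInf_le ⟨d, hd, h⟩

lemma Fr.lev_spec (F : C.Fr X d0) {v : V} (hv : v ∈ X) :
    ∃ d, C.M.tl d = some v ∧ C.FN X d0 univ (C.lev X d0 v) d := by
  refine Nat.sInf_mem (s := {n | ∃ d, C.M.tl d = some v ∧ C.FN X d0 univ n d}) ?_
  obtain ⟨x0, hx0, e0⟩ := F.h0
  have := F.conn x0 hx0 v hv
  clear hv
  induction this with
  | refl => exact ⟨0, d0, e0.symm, Equiv.Perm.SameCycle.refl _ _⟩
  | @tail a b _ h ih =>
    obtain ⟨n, d, h1, h2⟩ := ih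
    refine ⟨n + 1, C.f X (C.gd a b), ?_, (h2.at (by simp [h1]) (by rw [C.gd1 _ _ h.1, h1])).cyc
      (C.cyc_f X _)⟩
    rw [C.f_in (by simpa [C.gd1 _ _ h.1] using h.2.1) (by simpa [C.gd2 _ _ h.1] using h.2.2),
      C.M.tl_s, C.gd2 _ _ h.1]

lemma Fr.fn_at (F : C.Fr X d0) {v : V} (hv : v ∈ X) {e : D} (he : C.M.tl e = some v) :
    C.FN X d0 univ (C.lev X d0 v + 1) e := by
  obtain ⟨d, h1, h2⟩ := F.lev_spec hv
  exact h2.at (by simp [h1]) (he.trans h1.symm)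

lemma Fr.lev_adj (F : C.Fr X d0) {a b : V} (ha : a ∈ X) (hb : b ∈ X) (h : G.Adj a b) :
    C.lev X d0 b ≤ C.lev X d0 a + 1 := by
  refine lev_le ((F.fn_at ha (C.gd1 _ _ h)).cyc (C.cyc_f X _)) ?_
  rw [C.f_in (by simpa [C.gd1 _ _ h] using ha) (by simpa [C.gd2 _ _ h] using hb),
    C.M.tl_s, C.gd2 _ _ h]

lemma Fr.lev_out (F : C.Fr X d0) {a b : V} (ha : a ∈ X) (hb : b ∉ X) (h : G.Adj a b) :
    C.lev X d0 a = 0 :=
  Nat.le_zero.1 (lev_le (n := 0) (F.ext _ _ (C.gd_ext ha hb h)) (C.gd1 _ _ h))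

lemma Fr.climb (F : C.Fr X d0) {Y : Set V} (hY : Y ⊆ X) {i : ℕ} (hi : ∀ y ∈ Y, i ≤ C.lev X d0 y)
    {n : ℕ} (hn : n ≤ i) {d : D} (h : C.FN X d0 univ n d) : C.Eqv Y d0 d := by
  induction n generalizing d with
  | zero => exact (eqv_cyc F.h0 h).mono hY
  | succ n ih =>
    rcases h with h | ⟨a, b, h1, ⟨u, -, hu⟩, h3, h4⟩
    · exact ih (by omega) h
    · have := lev_le h1 hu.symm
      exact (ih (by omega) h1).trans ((eqv_at (fun k => by have := hi u k; omega) hu.symm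
        (h3.trans hu.symm)).trans ((eqv_cyc (h3 ▸ h1.mem F.h0) h4).mono hY))

variable (C X d0)

def Q (i : ℕ) (v : V) : Set V := comp G {x | x ∈ X ∧ i ≤ C.lev X d0 x} v

def Cy (i : ℕ) (v : V) : Set V := {x | x ∈ C.Q X d0 i v ∧ C.lev X d0 x = i}

variable {C X d0}

lemma Fr.exists_exit (F : C.Fr X d0) {R : Set V} (h1 : ∀ x ∈ R, C.lev X d0 x ≠ 0) {v : V}
    (hv : v ∈ X) (hR : v ∈ R) : ∃ x ∈ R, ∃ y ∈ X, y ∉ R ∧ G.Adj x y := by
  by_contra hn
  push Not at hn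
  obtain ⟨x0, hx0, e0⟩ := F.h0
  refine h1 x0 (F.conn.sub_of_closed hv hR (fun a ha b hab _ bX => ?_) hx0)
    (Nat.le_zero.1 (lev_le (n := 0) (Equiv.Perm.SameCycle.refl _ _) e0.symm))
  by_contra k
  exact hn a ha b bX k hab

lemma Fr.cy [DecidableEq D] (F : C.Fr X d0) {i : ℕ} (hi : 1 ≤ i) {v : V} (hv : v ∈ X)
    (hl : i ≤ C.lev X d0 v) : Conn G (C.Cy X d0 i v) ∧ (C.Cy X d0 i v).Nonempty := by
  have hv' : v ∈ {x | x ∈ X ∧ i ≤ C.lev X d0 x} := ⟨hv, hl⟩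
  have QS : C.Q X d0 i v ⊆ {x | x ∈ X ∧ i ≤ C.lev X d0 x} := comp_sub hv'
  have QX : C.Q X d0 i v ⊆ X := fun x hx => (QS hx).1
  have low : ∀ x ∈ C.Q X d0 i v, ∀ y ∉ C.Q X d0 i v, G.Adj x y → y ∈ X ∧ C.lev X d0 y < i := by
    intro x hx y hy h
    have yX : y ∈ X := by
      by_contra k
      have := F.lev_out (QX hx) k h
      have := (QS hx).2
      omega
    exact ⟨yX, not_le.1 fun k => hy (comp_step hv' hx h ⟨yX, k⟩)⟩
  obtain ⟨x, hx, y, -, hy, h⟩ := F.exists_exit (R := C.Q X d0 i v)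
    (fun x hx => by have := (QS hx).2; omega) hv (self_mem_comp _ v)
  have cl := fun d h => F.climb QX (fun y hy => (QS hy).2) le_rfl (d := d) h
  obtain ⟨yX, yl⟩ := low x hx y hy h
  have eg : C.Eqv (C.Q X d0 i v) d0 (C.gd x y) :=
    (cl _ ((F.fn_at yX (C.gd2 _ _ h)).mono yl)).trans
      (eqv_a (by rw [C.gd2 _ _ h]; simpa)).symm
  have gQ : C.M.tl (C.gd x y) ∈ o (C.Q X d0 i v) := by rw [C.gd1 _ _ h]; simpa
  have orb : ∀ e, (C.f (C.Q X d0 i v)).SameCycle (C.gd x y) e → C.M.tl e ∈ o (C.Cy X d0 i v) := by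
    intro e he
    have h1 := C.M.tl_of_cyc gQ he
    obtain ⟨g, g1, g2, g3⟩ := C.first_exit QX h1 he.symm (by rw [C.gd2 _ _ h]; simpa)
    obtain ⟨a, ha, b, hb, e1, e2, e3⟩ := C.exit_adj g2 g3
    obtain ⟨bX, bl⟩ := low a ha b hb e3
    obtain ⟨z, hz, ez⟩ := h1
    refine ⟨z, ⟨hz, le_antisymm (lev_le (((F.fn_at bX (e := C.f X g) ?_).mono bl).cyc
      (g1.trans (C.cyc_f X g)).symm) ez.symm) (QS hz).2⟩, ez⟩
    rw [C.f_in (o_mono QX g2) (by simpa [e2] using bX), C.M.tl_s, e2]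
  have key : ∀ z ∈ C.Cy X d0 i v, Relation.ReflTransGen (rel G (C.Cy X d0 i v)) x z := by
    rintro z ⟨h1, h2⟩
    obtain ⟨d, d1, d2⟩ := F.lev_spec (QX h1)
    exact C.orbit_walk orb (C.gd1 _ _ h) (C.orbit_child (conn_comp hv') gQ (by rw [d1]; exact some_mem_o.2 h1)
      (eg.symm.trans (cl d (h2 ▸ d2)))) z d1
  refine ⟨fun a ha b hb => (rt_symm (key a ha)).trans (key b hb), x, ?_⟩
  simpa [C.gd1 _ _ h] using orb _ (.refl _ _)

lemma free_level (β : Finset V) (l : V → ℕ) (a n : ℕ) (h : β.card ≤ n) :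
    ∃ i, a ≤ i ∧ i ≤ a + n ∧ ∀ x ∈ β, l x ≠ i := by
  obtain ⟨i, h1, h2⟩ := Finset.exists_mem_notMem_of_card_lt_card (s := β.image l)
    (t := Finset.Icc a (a + n)) (by
      have := Finset.card_image_le (s := β) (f := l)
      rw [Nat.card_Icc]; omega)
  exact ⟨i, (Finset.mem_Icc.1 h1).1, (Finset.mem_Icc.1 h1).2,
    fun x hx e => h2 (Finset.mem_image.2 ⟨x, hx, e⟩)⟩

theorem Fr.small_cut [DecidableEq D] [Finite V] (F : C.Fr X d0) {t : ℕ} (ht : TreewidthLE G t)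
    (v : V) (hv : v ∈ {x | x ∈ X ∧ 2 * t + 4 < C.lev X d0 x}) :
    ∃ R, Adm G {x | x ∉ X ∨ C.lev X d0 x = 0} {x | x ∈ X ∧ 2 * t + 4 < C.lev X d0 x} R ∧ v ∈ R ∧
      (bd G R).ncard ≤ t + 1 := by
  obtain ⟨hv, hl⟩ := hv
  have cy := fun i (h1 : 1 ≤ i) (h2 : i ≤ 2 * t + 4) => F.cy h1 hv (i := i) (by omega)
  have QS : ∀ i x, x ∈ X → i ≤ C.lev X d0 x → C.Q X d0 i x ⊆ {x | x ∈ X ∧ i ≤ C.lev X d0 x} :=
    fun i x h1 h2 => comp_sub ⟨h1, h2⟩
  obtain ⟨β, b1, b2⟩ := bramble_hit ht {B | ∃ i P, 1 ≤ i ∧ i ≤ t + 2 ∧ Conn G P ∧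
      (∀ j, 1 ≤ j → j ≤ t + 2 → ∃ x ∈ P, x ∈ C.Cy X d0 j v) ∧ B = P ∪ C.Cy X d0 i v}
    ⟨_, 1, X, le_rfl, by omega, F.conn, fun j h1 h2 => by
      obtain ⟨x, hx⟩ := (cy j h1 (by omega)).2
      exact ⟨x, (QS j v hv (by omega) hx.1).1, hx⟩, rfl⟩
    (by
      rintro _ ⟨i, P, h1, h2, h3, h4, rfl⟩
      obtain ⟨x, h5, h6⟩ := h4 i h1 h2
      exact conn_union h3 (cy i h1 (by omega)).1 h5 h6)
    (by
      rintro _ ⟨i, P, -, -, -, h4, rfl⟩ _ ⟨j, P', h1, h2, -, -, rfl⟩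
      obtain ⟨x, h5, h6⟩ := h4 j h1 h2
      exact ⟨x, Or.inl h5, Or.inr h6⟩)
  obtain ⟨i, i1, i2, i3⟩ := free_level β (C.lev X d0) 1 (t + 1) b1
  obtain ⟨j, j1, j2, j3⟩ := free_level β (C.lev X d0) (t + 3) (t + 1) b1
  let S : Set V := {x | x ∈ β ∧ 1 ≤ C.lev X d0 x ∧ C.lev X d0 x ≤ 2 * t + 4}
  have vS : v ∈ X \ S := ⟨hv, fun h => by have := h.2.2; omega⟩
  have RS : comp G (X \ S) v ⊆ X \ S := comp_sub vS
  have R0 : ∀ x ∈ comp G (X \ S) v, C.lev X d0 x ≠ 0 := by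
    intro o ho ol
    let Y : Set V := {x | x ∈ X ∧ 1 ≤ C.lev X d0 x ∧ C.lev X d0 x ≤ j ∧ x ∉ β}
    have CY : ∀ x ∈ X, j ≤ C.lev X d0 x → C.Cy X d0 j x ⊆ Y := fun x h1 h2 z hz =>
      ⟨(QS j x h1 h2 hz.1).1, by have := hz.2; omega, hz.2.le, fun k => j3 z k hz.2⟩
    obtain ⟨c0, hc0⟩ := (cy j (by omega) (by omega)).2
    have c0Y : c0 ∈ Y := CY v hv (by omega) hc0
    have PY : comp G Y c0 ⊆ Y := comp_sub c0Y
    have CP : ∀ x ∈ X, j ≤ C.lev X d0 x → ∀ z ∈ C.Cy X d0 j x, z ∈ comp G Y c0 →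
        C.Cy X d0 j x ⊆ comp G Y c0 := fun x h1 h2 z h3 h4 w hw =>
      Relation.ReflTransGen.trans h4 (rt_mono (CY x h1 h2) ((F.cy (by omega) h1 h2).1 z h3 w hw))
    have inv : (∃ p ∈ comp G Y c0, C.lev X d0 p ≤ 1) ∨
        (j ≤ C.lev X d0 o ∧ C.Cy X d0 j o ⊆ comp G Y c0) ∨ o ∈ comp G Y c0 := by
      clear ol
      induction ho with
      | refl => exact Or.inr (Or.inl ⟨by omega, CP v hv (by omega) c0 hc0 (self_mem_comp _ _)⟩)
      | @tail a b _ h ih =>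
        obtain ⟨h, ⟨aX, -⟩, bX, bS⟩ := h
        have l1 := F.lev_adj aX bX h
        have l2 := F.lev_adj bX aX h.symm
        have third : a ∈ comp G Y c0 → (∃ p ∈ comp G Y c0, C.lev X d0 p ≤ 1) ∨
            (j ≤ C.lev X d0 b ∧ C.Cy X d0 j b ⊆ comp G Y c0) ∨ b ∈ comp G Y c0 := by
          intro ha
          have l3 := (PY ha).2.2.1
          by_cases k0 : C.lev X d0 b = 0
          · exact Or.inl ⟨a, ha, by omega⟩
          by_cases k1 : C.lev X d0 b ≤ j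
          · exact Or.inr (Or.inr (comp_step c0Y ha h
              ⟨bX, by omega, k1, fun k => bS ⟨k, by omega, by omega⟩⟩))
          · exact Or.inr (Or.inl ⟨by omega, CP b bX (by omega) a ⟨comp_step
              (X := {x | x ∈ X ∧ j ≤ C.lev X d0 x}) ⟨bX, by omega⟩ (self_mem_comp _ b) h.symm
              ⟨aX, by omega⟩, by omega⟩ ha⟩)
        rcases ih with k | ⟨k1, k2⟩ | k
        · exact Or.inl k
        · by_cases k3 : j ≤ C.lev X d0 b
          · refine Or.inr (Or.inl ⟨k3, ?_⟩)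
            have : C.Q X d0 j b = C.Q X d0 j a := comp_eq (comp_step
              (X := {x | x ∈ X ∧ j ≤ C.lev X d0 x}) ⟨aX, k1⟩ (self_mem_comp _ a) h ⟨bX, k3⟩)
            simpa only [Cy, this] using k2
          · exact third (k2 ⟨self_mem_comp _ a, by omega⟩)
        · exact third k
    obtain ⟨p, hp, pl⟩ : ∃ p ∈ comp G Y c0, C.lev X d0 p ≤ 1 := by
      rcases inv with k | k | k
      · exact k
      · have := k.1; omega
      · have := (PY k).2.1; omega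
    obtain ⟨x, x1, x2 | x2⟩ := b2 _ ⟨i, comp G Y c0, i1, by omega, conn_comp c0Y, fun m m1 m2 => by
      have : p ∈ C.Q X d0 m v ∨ ∃ x ∈ comp G Y c0, x ∈ C.Cy X d0 m v := by
        clear pl
        induction hp with
        | refl =>
          exact Or.inl (comp_mono (X := {x | x ∈ X ∧ j ≤ C.lev X d0 x})
            (Y := {x | x ∈ X ∧ m ≤ C.lev X d0 x}) (fun x hx => ⟨hx.1, by have := hx.2; omega⟩) v hc0.1)
        | @tail a b ha h ih =>
          rcases ih with k | k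
          · by_cases k3 : m ≤ C.lev X d0 b
            · exact Or.inl (comp_step (X := {x | x ∈ X ∧ m ≤ C.lev X d0 x}) ⟨hv, by omega⟩ k h.1
                ⟨h.2.2.1, k3⟩)
            · have := F.lev_adj h.2.2.1 h.2.1.1 h.1.symm
              have := (QS m v hv (by omega) k).2
              exact Or.inr ⟨a, ha, k, by omega⟩
          · exact Or.inr k
      rcases this with k | k
      · have := (QS m v hv (by omega) k).2
        exact ⟨p, hp, k, by omega⟩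
      · exact k, rfl⟩
    exacts [(PY x2).2.2.2 x1, i3 x x1 x2.2]
  have bS : bd G (comp G (X \ S) v) ⊆ X ∩ S := by
    rintro x ⟨h1, y, hy, h⟩
    have xX : x ∈ X := by
      by_contra k
      exact R0 y hy (F.lev_out (RS hy).1 k h)
    refine ⟨xX, ?_⟩
    by_contra k
    exact h1 (comp_step vS hy h ⟨xX, k⟩)
  refine ⟨comp G (X \ S) v, ⟨fun x hx k => k.elim (fun k => k (RS hx).1) (R0 x hx), fun x hx => ?_⟩,
    self_mem_comp _ v, ?_⟩
  · obtain ⟨h1, -, h2, h3⟩ := bS hx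
    exact ⟨fun k => k.elim (fun k => k h1) fun k => by omega, fun k => by have := k.2; omega⟩
  · exact (ncard_le_ncard (show bd G (comp G (X \ S) v) ⊆ β from fun x hx => (bS hx).2.1)).trans
      (by simpa using b1)

end Ctx

end Pool.Agent.P.MP_845aff_co.TW
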