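import Pool.Agent.P.MP_845aff_co.TW.Quot

/-! Choosing a new separator in a piece of a graph of small treewidth. -/

namespace Pool.Agent.P.MP_845aff_co.TW

open PMap Set

variable {V D : Type} [DecidableEq V] [Fintype V] [Fintype D] [DecidableEq D] {G : SimpleGraph V}

def kk (t : ℕ) : ℕ := 2 * ((2 * t + 5) * (t + 2)) + 4

def ee (t : ℕ) : ℕ := 1 + (t + 1) * kk t

namespace Ctx

variable {C : Ctx G D}

omit [Fintype V] [DecidableEq D] in
lemma Piece.mono {k K b c i b' c' : ℕ} {X : Set V} {ord : V → ℤ} (h : C.Piece k K b c i X ord)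
    (hb : b ≤ b') (hc : c ≤ c') : C.Piece k K b' c' i X ord := by
  obtain ⟨h1, d0, P, r, h2, h3, h4, h5, h6, h7, h8, h9⟩ := h
  exact ⟨h1, d0, P, r, h2, h3, h4, h5, h6, h7.trans hb, h8, fun y hy => (h9 y hy).trans hc⟩

theorem reset {t Δ : ℕ} (ht : TreewidthLE G t) (hΔ : ∀ v, (G.neighborSet v).ncard ≤ Δ)
    {k K b c : ℕ} {X : Set V} {ord : V → ℤ} (hP : C.Piece k K b c k X ord) :
    C.Piece (kk t) (sepB (kk t) (c * Δ) * ee t) c (4 * kk t * ee t + (t + 1)) 0 X ord := by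
  classical
  obtain ⟨hc, d0, Pend, rank, h0, hext, hmono, PX, -, -, Pd, hcell⟩ := hP
  obtain ⟨v0, hv0, e0⟩ := id h0
  obtain rfl : Pend = ∅ := eq_empty_of_forall_notMem fun v hv => by
    have := Pd v hv
    omega
  have hb : (bd G X).ncard ≤ c := by
    have := hcell v0 ⟨hv0, by simp⟩
    rwa [diff_empty, show comp G X v0 = X from
      (comp_sub hv0).antisymm fun w hw => hc v0 hv0 w hw] at this
  have F : C.Fr X d0 := ⟨hc, h0, hext⟩
  obtain ⟨𝓜, H⟩ := F.exists_fam ht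
  obtain ⟨E, _, _, M, m1, m2, m3⟩ := H.quot
  obtain ⟨T, hT⟩ : ∃ T : Tr M (kk t), _ := H.tree F M m1 m2 m3
  obtain ⟨x0, -⟩ := m2 d0 v0 hv0 e0.symm
  have hr : ∀ v, ∃ x, v ∈ X → M.tl x = .inl (cls 𝓜 v) := fun v => by
    by_cases h : v ∈ X
    · obtain ⟨x, a, -⟩ := m2 _ v h (C.td1 v)
      exact ⟨x, fun _ => a⟩
    · exact ⟨x0, fun k => absurd k h⟩
  choose r hr using hr
  have hr' : ∀ v ∈ X, v ∈ free 𝓜 → M.tl (r v) = .inl {v} := fun v a b => by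
    rw [hr v a, cls_free b]
  let Must : Set V := {x | x ∈ X ∧ ∃ b, b ∉ X ∧ G.Adj x b}
  have Mc : Must.ncard ≤ c * Δ :=
    (ncard_le_ncard (show Must ⊆ {x | ∃ b ∈ bd G X, G.Adj x b} from
      fun x ⟨hx, b, hb, h⟩ => ⟨b, ⟨hb, x, hx, h⟩, h⟩)).trans
      ((ncard_nb hΔ _).trans (Nat.mul_le_mul_right _ hb))
  obtain ⟨Z, z1, z2, z3, z4⟩ := T.separator x0 (Must.toFinite.toFinset.image r)
  let Ex : Set V ⊕ Set D → Set V := fun x => {v | x = .inl {v}} ∪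
    {v | ∃ R ∈ 𝓜, x = .inl R ∧ ∃ u ∈ bd G R, T.up (.inl {u}) (.inl {v})}
  have Ec : ∀ x, (Ex x).ncard ≤ ee t := by
    intro x
    refine (ncard_union_le _ _).trans (add_le_add ?_ ?_)
    · exact ncard_le_one_iff_subsingleton.2 fun a ha b hb =>
        singleton_injective (Sum.inl.inj (ha.symm.trans hb))
    · by_cases h : ∃ R ∈ 𝓜, x = .inl R
      · obtain ⟨R, hR, rfl⟩ := h
        refine le_trans (ncard_le_ncard ?_) ((ncard_biUnion_le (bd G R)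
          (fun u => {v | T.up (.inl {u}) (.inl {v})}) (kk t) fun u hu => ?_).trans
          (Nat.mul_le_mul_right _ (H.card R hR)))
        · rintro v ⟨R', -, e, u, hu, k⟩
          exact mem_biUnion (Sum.inl.inj e ▸ hu) k
        · refine le_trans (ncard_le_ncard_of_injOn (t := ↑(T.A (r u)))
            (fun v => (Sum.inl {v} : Set V ⊕ Set D))
            (fun v hv => ?_) (fun a _ b _ e => singleton_injective (Sum.inl.inj e))
            (Finset.finite_toSet _)) (by simpa using T.card_A (r u))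
          rw [Finset.mem_coe, T.mem_A, hr' u (H.bsub R hR u hu) (H.bd_free hR hu)]
          exact hv
      · refine (ncard_le_ncard (t := ∅) ?_).trans (by simp)
        rintro v ⟨R, a, b, -⟩
        exact h ⟨R, a, b⟩
  have Bc : ∀ (B : Finset (Set V ⊕ Set D)) (S : Set V), (∀ v ∈ S, ∃ x ∈ B, v ∈ Ex x) →
      S.ncard ≤ B.card * ee t := by
    intro B S h
    have : S ⊆ B.biUnion fun x => (Ex x).toFinite.toFinset := fun v hv => by
      obtain ⟨x, a, b⟩ := h v hv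
      exact Finset.mem_biUnion.2 ⟨x, a, (Set.Finite.mem_toFinset _).2 b⟩
    refine (ncard_le_ncard this).trans ?_
    rw [ncard_coe_finset]
    exact Finset.card_biUnion_le_card_mul _ _ _ fun x _ => by
      rw [← ncard_eq_toFinset_card]; exact Ec x
  let P : Set V := {v | v ∈ X ∧ v ∈ free 𝓜 ∧ ∃ x ∈ Z, v ∈ Ex x}
  have P1 : ∀ v ∈ X, v ∈ free 𝓜 → .inl (cls 𝓜 v) ∈ Z → v ∈ P := fun v a b c =>
    ⟨a, b, _, c, Or.inl (congrArg _ (cls_free b))⟩
  have P2 : ∀ R ∈ 𝓜, .inl R ∈ Z → ∀ u ∈ bd G R, u ∈ P := fun R a b u c =>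
    ⟨H.bsub R a u c, H.bd_free a c, _, b, Or.inr ⟨R, a, rfl, u, c, T.up_refl _⟩⟩
  have P3 : ∀ x ∈ X, x ∉ P → ∀ b, G.Adj x b → b ∈ X := by
    intro x hx hP b h
    by_contra k
    refine hP (P1 x hx (fun R hR a => (H.sub R hR x a).2 (F.lev_out hx k h)) ?_)
    rw [← hr x hx]
    exact z1 _ (Finset.mem_image_of_mem _ ((Set.Finite.mem_toFinset _).2 ⟨hx, b, k, h⟩))
  refine ⟨hc, d0, P, fun v => T.lev (.inl {v}), h0, hext, hmono, fun v h => h.1, ?_, hb, ?_, ?_⟩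
  · refine (Bc Z P fun v h => h.2.2).trans (Nat.mul_le_mul_right _ (z2.trans (sepB_mono _ ?_)))
    exact Finset.card_image_le.trans (by rwa [← ncard_eq_toFinset_card])
  · rintro v ⟨a, b, x, hx, h⟩
    obtain ⟨d, d1, d2⟩ := hT v a b
    refine ⟨Nat.zero_le _, by simpa only [hr' v a b] using T.hk (r v), d, d1,
      d2.imp (eqv_cyc h0) ?_⟩
    rintro ⟨u, u1, u2, u3, u4, e, e1, e2⟩
    refine ⟨u, ⟨u1, u2, ?_⟩, u4, e, e1, eqv_cyc ⟨v, a, d1.symm⟩ e2⟩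
    rcases h with rfl | ⟨R, hR, rfl, w, w1, w2⟩
    exacts [⟨_, z3 _ hx _ u3, Or.inl rfl⟩, ⟨_, hx, Or.inr ⟨R, hR, rfl, w, w1, w2.trans u3⟩⟩]
  intro y hy
  have UX := comp_sub (G := G) hy
  have bP : ∀ s ∈ bd G (comp G (X \ P) y), s ∈ P := by
    rintro s ⟨h1, x, hx, h⟩
    by_contra k
    exact h1 (comp_step hy hx h ⟨P3 x (UX hx).1 (UX hx).2 s h, k⟩)
  by_cases hZ : .inl (cls 𝓜 y) ∈ Z
  · obtain ⟨R, hR, yR⟩ := (free_or 𝓜 y).resolve_left fun k => hy.2 (P1 y hy.1 k hZ)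
    rw [H.cls_mem hR yR] at hZ
    have UR : comp G (X \ P) y ⊆ R := comp_le yR fun a ha b h _ hb => by
      by_contra k
      exact hb.2 (P2 R hR hZ b ⟨k, a, ha, h⟩)
    have : bd G (comp G (X \ P) y) ⊆ bd G R := fun s hs => by
      obtain ⟨-, x, hx, h⟩ := id hs
      exact ⟨(bP s hs).2.1 R hR, x, UR hx, h⟩
    exact ((ncard_le_ncard this).trans (H.card R hR)).trans (Nat.le_add_left _ _)
  obtain ⟨B, b1, b2, Γ, g1, g2, g3, g4⟩ := z4 (r y) (by rwa [hr y hy.1])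
  rw [hr y hy.1] at g1
  have edge : ∀ u ∈ X, ∀ v ∈ X, G.Adj u v → cls 𝓜 u ≠ cls 𝓜 v → .inl (cls 𝓜 u) ∈ Γ →
      .inl (cls 𝓜 v) ∈ B ∨ .inl (cls 𝓜 v) ∈ Γ := by
    intro u hu v hv h hn k
    obtain ⟨x, x1, x2⟩ := m3 u hu v hv h hn
    exact x2 ▸ g3 x (x1 ▸ k)
  have UΓ : comp G (X \ P) y ⊆ {x | .inl (cls 𝓜 x) ∈ Γ} := comp_le g1 fun a ha b h aX bX => by
    by_cases k : cls 𝓜 a = cls 𝓜 b
    · show _ ∈ Γ
      rwa [← k]
    refine (edge a aX.1 b bX.1 h k ha).resolve_left fun hB => ?_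
    obtain ⟨R, hR, bR⟩ := (free_or 𝓜 b).resolve_left fun k => bX.2 (P1 b bX.1 k (b2 hB))
    rw [H.cls_mem hR bR] at hB k
    exact aX.2 (P2 R hR (b2 hB) a ⟨fun e => k (H.cls_mem hR e), b, bR, h.symm⟩)
  refine (Bc B _ fun s hs => ?_).trans ((Nat.mul_le_mul_right _ b1).trans (Nat.le_add_right _ _))
  obtain ⟨sX, sf, w, hw, k⟩ := bP s hs
  obtain ⟨h1, x, hx, h⟩ := hs
  have := edge x (UX hx).1 s sX h (fun e => by
    have : x ∈ cls 𝓜 s := e ▸ Or.inl rfl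
    rw [cls_free sf] at this
    exact h.ne this) (UΓ hx)
  rw [cls_free sf] at this
  rcases this with hB | hΓ
  · exact ⟨_, hB, Or.inl rfl⟩
  rcases k with rfl | ⟨R, hR, rfl, u, hu, k⟩
  · exact absurd hw (g2 _ hΓ)
  refine ⟨_, ?_, Or.inr ⟨R, hR, rfl, u, hu, k⟩⟩
  have uX := H.bsub R hR u hu
  have := g4 (r u) _ hΓ (by rwa [hr' u uX (H.bd_free hR hu)])
  rw [hr u uX] at this
  obtain ⟨u1, a, ha, e⟩ := hu
  have := edge u uX a (H.sub R hR a ha).1 e.symm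
    (fun k => u1 (H.cls_mem hR ha ▸ k ▸ Or.inl rfl)) this
  rw [H.cls_mem hR ha] at this
  exact this.resolve_right fun k => g2 _ k hw

end Ctx

end Pool.Agent.P.MP_845aff_co.TW
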