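import Pool.Agent.P.MP_845aff_co.Parity

/-! Operations on planar maps: deleting edges, restricting, adding face vertices. -/

namespace Pool.Agent.P.MP_845aff_co.TW

open Finset PMap

variable {D W : Type} [Fintype D] [DecidableEq D] [DecidableEq W]

lemma cycle_pot (f : Equiv.Perm D) (k : D → ZMod 2)
    (h : ∀ d, ∑ e ∈ univ.filter (fun e => f.SameCycle d e), k e = 0) :
    ∃ u : D → ZMod 2, ∀ d, u (f d) = u d + k (f d) := by
  classical
  cases isEmpty_or_nonempty D
  · exact ⟨k, fun d => isEmptyElim d⟩
  obtain ⟨r, r1, r2⟩ : ∃ r : D → D, (∀ d, f.SameCycle (r d) d) ∧ ∀ d, r (f d) = r d :=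
    ⟨fun d => Classical.epsilon fun e => f.SameCycle e d, fun d =>
      Classical.epsilon_spec (p := fun e => f.SameCycle e d) ⟨d, .refl _ _⟩, fun d => by
      simp only [Equiv.Perm.sameCycle_apply_right]⟩
  choose j j1 j2 using fun d => exists_el f (r d) (r1 d)
  refine ⟨fun d => ∑ i ∈ range (j d), k (el f (r d) (i + 1)), fun d => ?_⟩
  have e1 : el f (r d) (j d + 1) = f d := by rw [el_succ, j2]
  have a1 := j1 (f d)
  have a2 := j2 (f d)
  rw [r2] at a1 a2
  simp only [r2]
  rcases (show j d + 1 ≤ per f (r d) from j1 d).lt_or_eq with hl | hl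
  · rw [el_inj f (r d) a1 hl (a2.trans e1.symm), sum_range_succ, e1]
  · have e2 : f d = el f (r d) 0 := by rw [← e1, hl, el_per, el_zero]
    rw [el_inj f (r d) a1 (per_pos f _) (a2.trans e2), sum_range_zero]
    have e3 : ∑ i ∈ range (per f (r d)), k (el f (r d) (i + 1)) = 0 := by
      rw [← h (r d)]
      refine sum_bij (fun i _ => el f (r d) (i + 1)) (fun i _ => by simpa using cyc_el f _ _)
        (fun a ha b hb e => ?_) (fun b hb => ?_) fun _ _ => rfl
      · simp only [el_succ] at e
        exact el_inj f _ (mem_range.1 ha) (mem_range.1 hb) (f.injective e)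
      · obtain ⟨i, i1, i2⟩ := exists_el f (r d) (e := f⁻¹ b) (by simpa using hb)
        exact ⟨i, mem_range.2 i1, by rw [el_succ, i2]; simp⟩
    rw [← hl, sum_range_succ, e1] at e3
    exact e3.symm

open Classical in
/-- delete all edges outside a symmetric set of darts -/
noncomputable def del (M : PMap D W) (P : D → Prop) (hP : ∀ d, P d → P (M.a d)) : PMap D W where
  s := M.s
  a := Function.Involutive.toPerm (fun d => if P d then M.a d else d) (by
    intro d
    by_cases h : P d
    · simp only [if_pos h, if_pos (hP d h), M.aa]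
    · simp only [if_neg h])
  tl := M.tl
  aa := fun d => by
    by_cases h : P d
    · simp [h, hP d h, M.aa]
    · simp [h]
  tl_s := M.tl_s
  cyc := M.cyc
  pot := by
    intro c h1 h2 h3
    simp only [Function.Involutive.coe_toPerm] at h1 h2 ⊢
    have n : ∀ d, ¬ P d → c d = 0 := fun d h => h2 d (if_neg h)
    obtain ⟨w, hw⟩ := M.pot c (fun d => by
      by_cases h : P d
      · simpa [h] using h1 d
      · rw [n d h, n _ fun k => h (by simpa [M.aa] using hP _ k)])
      (fun d e => h2 d (by simp [e])) h3
    refine ⟨w, fun d => ⟨(hw d).1, ?_⟩⟩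
    by_cases h : P d
    · rw [if_pos h]; exact (hw d).2
    · rw [if_neg h, n d h, add_zero]

omit [DecidableEq D] in
lemma del_a (M : PMap D W) (P : D → Prop) (hP : ∀ d, P d → P (M.a d)) (d : D) :
    (P d → (del M P hP).a d = M.a d) ∧ (¬ P d → (del M P hP).a d = d) := by
  constructor <;> intro h <;> simp [del, h]

open Classical in
/-- the submap on a set of vertices -/
noncomputable def sub (M : PMap D W) (X : Set W) : PMap {d // M.tl d ∈ X} W where
  s := M.s.subtypePerm fun d => by rw [M.tl_s]
  a := (M.aX X).subtypePerm fun d =>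
    ⟨fun h => by simpa [M.aX_aX] using M.tl_aX h, fun h => M.tl_aX h⟩
  tl := fun d => M.tl d.1
  aa := fun d => Subtype.ext (M.aX_aX X d.1)
  tl_s := fun d => M.tl_s d.1
  cyc := fun d e h => (Equiv.Perm.sameCycle_subtypePerm).2 (M.cyc _ _ h)
  pot := by
    intro c h1 h2 h3
    let c' : D → ZMod 2 := fun d => if h : M.tl d ∈ X then c ⟨d, h⟩ else 0
    have n : ∀ d, ¬ (M.tl d ∈ X ∧ M.tl (M.a d) ∈ X) → c' d = 0 := fun d h => by
      by_cases k : M.tl d ∈ X
      · simp only [c', dif_pos k]
        exact h2 _ (Subtype.ext (M.aX_out h))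
      · simp only [c', dif_neg k]
    obtain ⟨w, hw⟩ := M.pot c' (fun d => by
      by_cases h : M.tl d ∈ X ∧ M.tl (M.a d) ∈ X
      · simp only [c', dif_pos h.1, dif_pos h.2]
        rw [← h1 ⟨d, h.1⟩]
        exact congrArg c (Subtype.ext (M.aX_in h.1 h.2).symm)
      · rw [n d h, n _ (by rw [M.aa]; exact fun e => h ⟨e.2, e.1⟩)])
      (fun d e => by
        by_cases k : M.tl d ∈ X
        · simp only [c', dif_pos k]
          exact h2 _ (Subtype.ext ((M.aX_in k (by rwa [e])).trans e))
        · simp only [c', dif_neg k])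
      (fun x => by
        rw [← h3 x]
        symm
        refine sum_bij_ne_zero (fun d _ _ => d.1) (fun d hd _ => by simpa using hd)
          (fun _ _ _ _ _ _ e => Subtype.ext e) (fun d hd k => ?_) fun d _ _ => ?_
        · have : M.tl d ∈ X := by
            by_contra hn
            exact k (by simp only [c', dif_neg hn])
          exact ⟨⟨d, this⟩, by simpa using hd, by simpa only [c', dif_pos this] using k, rfl⟩
        · simp only [c', dif_pos d.2])
    refine ⟨fun d => w d.1, fun d => ⟨?_, ?_⟩⟩
    · have := (hw d.1).1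
      simp only [c', dif_pos d.2] at this
      exact this
    · by_cases h : M.tl (M.a d.1) ∈ X
      · have := (hw d.1).2
        simp only [c', dif_pos d.2] at this
        rw [← this]
        exact congrArg w (M.aX_in d.2 h)
      · have e : M.aX X d.1 = d.1 := M.aX_out fun k => h k.2
        rw [h2 d (Subtype.ext e), add_zero]
        exact congrArg w e

/-- rotation of the map with face vertices -/
def rs (M : PMap D W) : Equiv.Perm (D ⊕ D ⊕ D) where
  toFun := Sum.elim (fun d => .inr (.inl (M.s d)))
    (Sum.elim (fun d => .inl d) fun d => .inr (.inr ((M.s * M.a)⁻¹ d)))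
  invFun := Sum.elim (fun d => .inr (.inl d))
    (Sum.elim (fun d => .inl (M.s⁻¹ d)) fun d => .inr (.inr ((M.s * M.a) d)))
  left_inv := by rintro (d | d | d) <;> simp
  right_inv := by rintro (d | d | d) <;> simp

def ra (M : PMap D W) : Equiv.Perm (D ⊕ D ⊕ D) :=
  Function.Involutive.toPerm (Sum.elim (fun d => .inl (M.a d))
    (Sum.elim (fun d => .inr (.inr d)) fun d => .inr (.inl d))) (by
      rintro (d | d | d) <;> simp [M.aa])

def face (M : PMap D W) (d : D) : Set D := {e | (M.s * M.a).SameCycle d e}

omit [DecidableEq D] in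
lemma face_eq (M : PMap D W) {d e : D} : face M d = face M e ↔ (M.s * M.a).SameCycle d e := by
  constructor
  · intro h
    have : e ∈ face M e := Equiv.Perm.SameCycle.refl _ _
    rwa [← h] at this
  · intro h
    ext x
    exact ⟨fun k => h.symm.trans k, fun k => h.trans k⟩

open Classical in
/-- a new vertex in each face, joined to all corners of the face -/
noncomputable def radial (M : PMap D W) : PMap (D ⊕ D ⊕ D) (W ⊕ Set D) where
  s := rs M
  a := ra M
  tl := Sum.elim (fun d => .inl (M.tl d))
    (Sum.elim (fun d => .inl (M.tl d)) fun d => .inr (face M d))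
  aa := by rintro (d | d | d) <;> simp [ra, M.aa]
  tl_s := by
    rintro (d | d | d)
    · simp [rs, M.tl_s]
    · simp [rs]
    · exact congrArg Sum.inr ((face_eq M).2 ⟨1, by simp⟩)
  cyc := by
    have s0 : ∀ d, (rs M).SameCycle (.inr (.inl d)) (.inl d) := fun d => ⟨1, rfl⟩
    have s1 : ∀ d e, M.tl d = M.tl e → (rs M).SameCycle (.inl d) (.inl e) := fun d e h =>
      sameCycle_le M.s (fun x y => (rs M).SameCycle (.inl x) (.inl y)) (fun _ => .refl _ _)
        (fun _ _ _ => .trans) (fun x => .trans ⟨1, rfl⟩ (s0 _)) (M.cyc d e h)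
    rintro (d | d | d) (e | e | e) h <;> simp only [Sum.elim_inl, Sum.elim_inr, Sum.inl.injEq,
      Sum.inr.injEq, reduceCtorEq] at h
    · exact s1 d e h
    · exact (s1 d e h).trans (s0 e).symm
    · exact (s0 d).trans (s1 d e h)
    · exact (s0 d).trans ((s1 d e h).trans (s0 e).symm)
    · exact sameCycle_le (M.s * M.a) (fun x y => (rs M).SameCycle (.inr (.inr x)) (.inr (.inr y)))
        (fun _ => .refl _ _) (fun _ _ _ => .trans)
        (fun x => Equiv.Perm.SameCycle.symm ⟨1, by simp [rs]⟩) ((face_eq M).1 h)
  pot := by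
    intro c h1 h2 h3
    have k1 : ∀ d, c (.inr (.inr d)) = c (.inr (.inl d)) := fun d => h1 (.inr (.inl d))
    have k2 : ∀ d, c (.inl (M.a d)) = c (.inl d) := fun d => h1 (.inl d)
    obtain ⟨u, hu⟩ := cycle_pot (M.s * M.a) (fun d => c (.inr (.inl d))) (fun d => by
      have := h3 (.inr (face M d))
      rw [sum_filter, Fintype.sum_sum_type, Fintype.sum_sum_type] at this
      simp only [Sum.elim_inl, Sum.elim_inr, reduceCtorEq, if_false, sum_const_zero, zero_add,
        Sum.inr.injEq, face_eq, k1] at this
      rw [sum_filter]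
      refine Eq.trans (sum_congr rfl fun e _ => ?_) this
      simp only [Equiv.Perm.sameCycle_comm])
    have hu' : ∀ d, u (M.s d) = u (M.a d) + c (.inr (.inl (M.s d))) := fun d => by
      simpa [M.aa] using hu (M.a d)
    obtain ⟨w, w1, w2⟩ := M.pot0 (c := fun d => c (.inl d) + u d + u (M.a d))
      ⟨fun d => by simp only [k2, M.aa]; ring, fun d e => by
        have : c (.inl d) = 0 := h2 _ (by simp [ra, e])
        simp only [this, e, zero_add, z2]⟩ (fun x => by
      have e1 := h3 (.inl x)
      rw [sum_filter, Fintype.sum_sum_type, Fintype.sum_sum_type] at e1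
      simp only [Sum.elim_inl, Sum.elim_inr, reduceCtorEq, if_false, sum_const_zero, add_zero,
        Sum.inl.injEq] at e1
      rw [← sum_filter, ← sum_filter] at e1
      have e2 := M.bdry_s (fun d => u d + c (.inr (.inl d))) x
      have e3 : ∀ d, u (M.s d) + c (.inr (.inl (M.s d))) = u (M.a d) := fun d => by
        rw [hu', add_assoc, z2, add_zero]
      simp only [e3, bdry, sum_add_distrib] at e2 ⊢
      rw [e2]
      have := z2 (∑ d with M.tl d = x, u d)
      linear_combination e1 + this)
    refine ⟨Sum.elim (fun d => w d + u d) (Sum.elim (fun d => w d + u d + c (.inr (.inl d)))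
      fun d => w d + u d), ?_⟩
    rintro (d | d | d)
    · constructor
      · show w (M.s d) + u (M.s d) + c (.inr (.inl (M.s d))) = w d + u d + c (.inl d)
        rw [w1, hu']
        have := z2 (u (M.a d))
        have := z2 (c (.inr (.inl (M.s d))))
        linear_combination this + ‹u (M.a d) + u (M.a d) = 0›
      · show w (M.a d) + u (M.a d) = w d + u d + c (.inl d)
        rw [w2]
        have := z2 (u (M.a d))
        linear_combination this
    · have := z2 (c (.inr (.inl d)))
      constructor
      · show w d + u d = w d + u d + c (.inr (.inl d)) + c (.inr (.inl d))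
        linear_combination -this
      · show w d + u d = w d + u d + c (.inr (.inl d)) + c (.inr (.inl d))
        linear_combination -this
    · constructor
      · obtain ⟨d, rfl⟩ := (M.s * M.a).surjective d
        show w ((M.s * M.a)⁻¹ ((M.s * M.a) d)) + u ((M.s * M.a)⁻¹ ((M.s * M.a) d)) =
          w ((M.s * M.a) d) + u ((M.s * M.a) d) + c (.inr (.inr ((M.s * M.a) d)))
        rw [Equiv.Perm.inv_def, Equiv.symm_apply_apply, hu, k1, Equiv.Perm.mul_apply, w1, w2, k2,
          M.aa]
        have := z2 (c (.inr (.inl (M.s (M.a d)))))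
        have h5 := z2 (c (.inl d) + u d + u (M.a d))
        linear_combination -this - h5
      · show w d + u d + c (.inr (.inl d)) = w d + u d + c (.inr (.inr d))
        rw [k1]

end Pool.Agent.P.MP_845aff_co.TW
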