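import Pool.Agent.P.MP_845aff_co.Topo2
import Pool.Agent.P.MP_845aff_co.Topo3
import Pool.Agent.P.MP_845aff_co.TW.Maps
import Pool.Agent.P.MP_845aff_co.TW.Faces

/-! A plane drawing gives a planar map. -/

namespace Pool.Agent.P.MP_845aff_co.TW

open Set Metric Pool.Agent.P.MP_da739a_co

theorem model_of_sets {W E : Type} [Finite W] [Finite E] (s t : E → W) (hst : ∀ e, s e ≠ t e)
    (K : W → Set (ℝ × ℝ)) (M : E → Set (ℝ × ℝ)) (hKc : ∀ x, IsCompact (K x))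
    (hKp : ∀ x, IsPreconnected (K x)) (hKn : ∀ x, (K x).Nonempty) (hMc : ∀ e, IsCompact (M e))
    (hMp : ∀ e, IsPreconnected (M e)) (dKK : ∀ x y, x ≠ y → Disjoint (K x) (K y))
    (dMK : ∀ e w, s e ≠ w → t e ≠ w → Disjoint (M e) (K w))
    (dMM : ∀ e f, e ≠ f → Disjoint (M e) (M f))
    (hs : ∀ e, (M e ∩ K (s e)).Nonempty) (ht : ∀ e, (M e ∩ K (t e)).Nonempty) :
    ∃ B : W → Set (ℤ × ℤ), (∀ x, (B x).Finite) ∧
      (∀ x y a, a ∈ B x → a ∈ B y → x = y) ∧ (∀ x, ∀ a ∈ B x, ∀ b ∈ B x, RT (B x) a b) ∧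
      (∀ e, Touch (B (s e)) (B (t e))) ∧ ∀ x, (B x).Nonempty := by
  obtain ⟨η, hη, hsep⟩ := exists_mesh (J := W ⊕ E) (Sum.elim K M) (by
    rintro (v | e)
    exacts [hKc v, hMc e])
  choose p hp using hKn
  let U : W → Set (ℤ × ℤ) := fun v =>
    {a | a ∈ nb η (K v) ∨ ∃ e, s e = v ∧ a ∈ nb η (M e) \ nb η (K (t e))}
  have hMU : ∀ e w a, a ∈ nb η (M e) \ nb η (K (t e)) → a ∈ nb η (K w) → s e = w := by
    intro e w a ha hw
    by_contra hne
    by_cases h : t e = w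
    · exact ha.2 (h ▸ hw)
    · exact hsep (Sum.inr e) (Sum.inl w) (dMK e w hne h) a ha.1 hw
  have hUd : ∀ u v a, a ∈ U u → a ∈ U v → u = v := by
    intro u v a hu hv'
    rcases hu with hu | ⟨e, rfl, hu⟩ <;> rcases hv' with hv' | ⟨f, rfl, hv'⟩
    · by_contra hne
      exact hsep (Sum.inl u) (Sum.inl v) (dKK u v hne) a hu hv'
    · exact (hMU f u a hv' hu).symm
    · exact hMU e v a hu hv'
    · by_contra hne
      exact hsep (Sum.inr e) (Sum.inr f) (dMM e f fun h => hne (by rw [h])) a hu.1 hv'.1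
  let B0 : W → Set (ℤ × ℤ) := fun v => {a | a ∈ U v ∧ RT (U v) (gp η (p v)) a}
  have hKB : ∀ v a, a ∈ nb η (K v) → a ∈ B0 v := fun v a ha =>
    ⟨Or.inl ha, (rt_of_preconnected hη (hKp v) (hp v) ha).mono fun a ha => Or.inl ha⟩
  have hrt : ∀ v, ∀ a ∈ B0 v, RT (B0 v) (gp η (p v)) a := fun v a ha =>
    rt_restrict ha.2 fun b h1 h2 => ⟨h1, h2⟩
  refine ⟨B0, fun v => ((nb_finite hη (hKc v)).union
      (finite_iUnion fun e => nb_finite hη (hMc e))).subset ?_,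
    fun x y a hx hy => hUd x y a hx.1 hy.1,
    fun x a ha b hb => (hrt x a ha).symm.trans' (hrt x b hb), fun e => ?_,
    fun x => ⟨_, hKB _ _ (gp_mem (hp x))⟩⟩
  · rintro a ⟨h | ⟨e, -, h⟩, -⟩
    exacts [Or.inl h, Or.inr (mem_iUnion.2 ⟨e, h.1⟩)]
  obtain ⟨u, a2, a1⟩ := hs e
  obtain ⟨v, c2, c1⟩ := ht e
  obtain ⟨x, y, k1, k2, k3, g, hg⟩ := first_entry (B := nb η (K (t e)))
    (rt_of_preconnected hη (hMp e) a2 (gp_mem c2))
    (hsep (Sum.inl (s e)) (Sum.inl (t e)) (dKK _ _ (hst e)) _ (gp_mem a1)) (gp_mem a2) (gp_mem c1)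
  refine ⟨x, ⟨Or.inr ⟨e, rfl, k2⟩, ?_⟩, y, hKB _ _ k3, g, hg⟩
  exact (hKB _ _ (gp_mem a1)).2.trans' (k1.mono fun a ha => Or.inr ⟨e, rfl, ha⟩)

theorem exists_blobs {V : Type} [Fintype V] {G : SimpleGraph V} (D : Drawing G) :
    ∃ B : V → Set (ℤ × ℤ), (∀ x, (B x).Finite) ∧ (∀ x y a, a ∈ B x → a ∈ B y → x = y) ∧
      (∀ x, ∀ a ∈ B x, ∀ b ∈ B x, RT (B x) a b) ∧ (∀ u v, G.Adj u v → Touch (B u) (B v)) ∧
      ∀ x, (B x).Nonempty := by
  classical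
  let key : V → ℕ := fun v => Fintype.equivFin V v
  have key2 : ∀ u v, u ≠ v → key u < key v ∨ key v < key u := fun u v h =>
    lt_or_gt_of_ne fun e => h ((Fintype.equivFin V).injective (Fin.ext e))
  let K : V → Set (ℝ × ℝ) := fun v => {D.f v} ∪ ⋃ u ∈ {u | G.Adj v u}, D.γ v u '' Icc 0 (1 / 3)
  have hKs : ∀ v z, z ∈ K v ↔ z = D.f v ∨
      ∃ u t, G.Adj v u ∧ t ∈ Icc (0 : ℝ) (1 / 3) ∧ D.γ v u t = z := fun v z => by
    simp only [K, mem_union, mem_singleton_iff, mem_iUnion, mem_ofPred_eq, mem_image,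
      exists_prop, exists_and_left]
  have i1 : Icc (0 : ℝ) (1 / 3) ⊆ Icc 0 1 := Icc_subset_Icc le_rfl (by norm_num)
  have i2 : Icc (1 / 3 : ℝ) (1 - 1 / 3) ⊆ Ioo 0 1 := fun t ht =>
    ⟨by linarith [ht.1], by linarith [ht.2]⟩
  have i3 := i2.trans Ioo_subset_Icc_self
  have K2 : ∀ u v w, G.Adj u v → ∀ t ∈ Ioo (0 : ℝ) 1, D.γ u v t ∈ K w →
      (w = u ∧ t ≤ 1 / 3) ∨ (w = v ∧ 2 / 3 ≤ t) := by
    intro u v w h t ht hz
    rcases (hKs w _).1 hz with k | ⟨u', t', h1, h2, k⟩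
    · exact absurd k (D.avoid u v h t ht w)
    · rcases D.eq_arc h h1 ht (i1 h2) k with ⟨a, b, c⟩ | ⟨a, b, c⟩
      · exact Or.inl ⟨a, by linarith [h2.2]⟩
      · exact Or.inr ⟨a, by linarith [h2.2]⟩
  have K1 : ∀ u w, D.f u ∈ K w → u = w := by
    intro u w h
    rcases (hKs w _).1 h with k | ⟨u', t', h1, h2, k⟩
    · exact D.inj k
    · rcases D.eq_vertex h1 (i1 h2) k with k | k
      · exact k.2.symm
      · linarith [k.1, h2.2]
  obtain ⟨B, b1, b2, b3, b4, b5⟩ := model_of_sets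
    (E := {p : V × V // G.Adj p.1 p.2 ∧ key p.1 < key p.2}) (fun p => p.1.1) (fun p => p.1.2)
    (fun p => p.2.1.ne) K (fun p => D.γ p.1.1 p.1.2 '' Icc (1 / 3) (1 - 1 / 3))
    (fun v => isCompact_singleton.union ((toFinite _).isCompact_biUnion fun u hu =>
      isCompact_Icc.image_of_continuousOn ((D.cont v u hu).mono i1)))
    (by
      refine fun v => isPreconnected_of_forall (D.f v) fun z hz => ?_
      rcases (hKs v z).1 hz with rfl | ⟨u, t, h1, h2, rfl⟩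
      · exact ⟨{D.f v}, singleton_subset_iff.2 hz, rfl, rfl, isPreconnected_singleton⟩
      · refine ⟨D.γ v u '' Icc 0 (1 / 3), ?_, ⟨0, ⟨le_rfl, by norm_num⟩, D.src v u h1⟩,
          ⟨t, h2, rfl⟩, isPreconnected_Icc.image _ ((D.cont v u h1).mono i1)⟩
        rintro _ ⟨t', ht', rfl⟩
        exact (hKs _ _).2 (Or.inr ⟨u, t', h1, ht', rfl⟩))
    (fun v => ⟨D.f v, (hKs _ _).2 (Or.inl rfl)⟩)
    (fun p => isCompact_Icc.image_of_continuousOn ((D.cont _ _ p.2.1).mono i3))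
    (fun p => isPreconnected_Icc.image _ ((D.cont _ _ p.2.1).mono i3))
    (by
      intro u w huw
      rw [Set.disjoint_left]
      intro z hz hz'
      apply huw
      rcases (hKs u z).1 hz with rfl | ⟨v, t, h1, h2, rfl⟩
      · exact K1 _ _ hz'
      · rcases h2.1.eq_or_lt with rfl | hlt
        · rw [D.src u v h1] at hz'
          exact K1 _ _ hz'
        · rcases K2 u v w h1 t ⟨hlt, by linarith [h2.2]⟩ hz' with k | k
          · exact k.1.symm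
          · linarith [k.2, h2.2])
    (by
      intro p w h1 h2
      rw [Set.disjoint_left]
      rintro _ ⟨t, ht, rfl⟩ hz
      rcases K2 _ _ w p.2.1 t (i2 ht) hz with k | k
      exacts [h1 k.1.symm, h2 k.1.symm])
    (by
      intro p q hne
      rw [Set.disjoint_left]
      rintro _ ⟨t, ht, rfl⟩ ⟨t', ht', e⟩
      rcases D.eq_arc p.2.1 q.2.1 (i2 ht) (i3 ht') e with ⟨a, b, -⟩ | ⟨a, b, -⟩
      · exact hne (Subtype.ext (Prod.ext a b).symm)
      · have h1 := p.2.2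
        have h2 := q.2.2
        rw [a, b] at h2
        exact lt_asymm h1 h2)
    (fun p => ⟨D.γ p.1.1 p.1.2 (1 / 3), ⟨_, ⟨le_rfl, by norm_num⟩, rfl⟩,
      (hKs _ _).2 (Or.inr ⟨_, _, p.2.1, ⟨by norm_num, le_rfl⟩, rfl⟩)⟩)
    (fun p => ⟨D.γ p.1.1 p.1.2 (1 - 1 / 3), ⟨_, ⟨by norm_num, le_rfl⟩, rfl⟩,
      (hKs _ _).2 (Or.inr ⟨_, _, p.2.1.symm, ⟨by norm_num, le_rfl⟩,
        D.rev _ _ p.2.1 _ (i1 ⟨by norm_num, le_rfl⟩)⟩)⟩)
  refine ⟨B, b1, b2, b3, fun u v h => ?_, b5⟩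
  rcases key2 u v h.ne with k | k
  · exact b4 ⟨(u, v), h, k⟩
  · exact (b4 ⟨(v, u), h.symm, k⟩).symm

theorem map_of_blobs {W : Type} [Finite W] [DecidableEq W] [Nonempty W] (B : W → Set (ℤ × ℤ))
    (hfin : ∀ x, (B x).Finite) (hdis : ∀ x y a, a ∈ B x → a ∈ B y → x = y)
    (hcon : ∀ x, ∀ a ∈ B x, ∀ b ∈ B x, RT (B x) a b) :
    ∃ (D : Type) (_ : Fintype D) (_ : DecidableEq D) (M : PMap D W),
      (∀ x y, x ≠ y → Touch (B x) (B y) → ∃ d, M.tl d = x ∧ M.tl (M.a d) = y) ∧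
      ∀ x, (B x).Nonempty → ∃ d, M.tl d = x := by
  classical
  let U : Finset (ℤ × ℤ) := (Set.finite_iUnion hfin).toFinset
  have hU : ∀ a, a ∈ U ↔ ∃ x, a ∈ B x := fun a => by simp [U]
  let q : ℤ × ℤ → W := fun a => Classical.epsilon fun x => a ∈ B x
  have hq : ∀ x a, a ∈ B x → q a = x := fun x a h =>
    hdis _ _ a (Classical.epsilon_spec (p := fun x => a ∈ B x) ⟨x, h⟩) h
  let M := gridMap U
  obtain ⟨M', h1, F, h2, -, -, h5⟩ := PMap.blob q (fun d => q (M.tl d) = q (M.tl (M.a d))) _ M rfl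
    (fun d hd => by rw [M.aa]; exact hd.symm) (fun d hd => hd) (by
      intro d e h
      obtain ⟨x, hx⟩ := (hU _).1 d.1.2
      obtain ⟨y, hy⟩ := (hU _).1 e.1.2
      have hxy : x = y := by rw [← hq x _ hx, ← hq y _ hy]; exact h
      subst hxy
      have := hcon x _ hx _ hy
      show Relation.ReflTransGen _ d.1.1 e.1.1
      refine Relation.ReflTransGen.mono ?_ _ _ this
      rintro a b ⟨ha, hb, g, hg⟩
      obtain ⟨d', k1, k2⟩ := grid_dart U hg ((hU _).2 ⟨x, ha⟩) ((hU _).2 ⟨x, hb⟩)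
      exact ⟨d', by rw [k1, k2, hq x a ha, hq x b hb], k1, k2⟩)
  refine ⟨_, inferInstance, inferInstance, M', ?_, ?_⟩
  · rintro x y hxy ⟨a, ha, b, hb, g, hg⟩
    obtain ⟨d, k1, k2⟩ := grid_dart U hg ((hU _).2 ⟨x, ha⟩) ((hU _).2 ⟨y, hb⟩)
    have hn : ¬ F d := fun h => by
      have := h2 d h
      rw [k1, k2, hq x a ha, hq y b hb] at this
      exact hxy this
    exact ⟨d, by rw [h1, k1, hq x a ha], by rw [h1, (h5 d hn).1, k2, hq y b hb]⟩
  · rintro x ⟨a, ha⟩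
    exact ⟨(⟨a, (hU _).2 ⟨x, ha⟩⟩, 0), (h1 _).trans (hq x a ha)⟩

theorem exists_ctx {V : Type} [Fintype V] [DecidableEq V] {G : SimpleGraph V} (P : Drawing G) :
    ∃ (D : Type) (_ : Fintype D) (_ : DecidableEq D), Nonempty (Ctx G D) := by
  obtain ⟨B, b1, b2, b3, b4, b5⟩ := exists_blobs P
  obtain ⟨D, i1, i2, M, m1, m2⟩ := map_of_blobs (W := Option V) (fun x => x.elim ∅ B)
    (by
      rintro (_ | v)
      exacts [finite_empty, b1 v])
    (by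
      rintro (_ | u) (_ | v) a h1 h2
      exacts [rfl, h1.elim, h2.elim, congrArg some (b2 u v a h1 h2)])
    (by
      rintro (_ | v)
      exacts [fun a h => h.elim, b3 v])
  choose td htd using fun v => m2 (some v) (b5 v)
  have : ∀ u v, ∃ d, G.Adj u v → M.tl d = some u ∧ M.tl (M.a d) = some v := by
    intro u v
    by_cases h : G.Adj u v
    · obtain ⟨d, hd⟩ := m1 (some u) (some v) (fun e => h.ne (Option.some.inj e)) (b4 u v h)
      exact ⟨d, fun _ => hd⟩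
    · exact ⟨td u, fun k => absurd k h⟩
  choose gd hgd using this
  let Q : D → Prop := fun d => ∃ u v, M.tl d = some u ∧ M.tl (M.a d) = some v ∧ G.Adj u v
  have hQ : ∀ d, Q d → Q (M.a d) := fun d ⟨u, v, a, b, c⟩ => ⟨v, u, b, by rwa [M.aa], c.symm⟩
  refine ⟨D, i1, i2, ⟨⟨del M Q hQ, gd, fun u v h => (hgd u v h).1, fun u v h => ?_, td, htd,
    fun d => ?_⟩⟩⟩
  · rw [(del_a M Q hQ _).1 ⟨u, v, (hgd u v h).1, (hgd u v h).2, h⟩]
    exact (hgd u v h).2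
  · by_cases h : Q d
    · rw [(del_a M Q hQ _).1 h]
      exact Or.inr h
    · exact Or.inl ((del_a M Q hQ _).2 h)

end Pool.Agent.P.MP_845aff_co.TW
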