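import Pool.Agent.P.MP_845aff_co.Main
import Pool.Agent.P.MP_845aff_co.TW.Reset
import Pool.Agent.P.MP_845aff_co.TW.Topo

namespace Pool.Agent.P.MP_845aff_co.TW

open Set

def cc (t Δ i : ℕ) : ℕ := (4 * kk t * ee t + (t + 1)) * (Δ + 2) ^ i

def KK (t Δ : ℕ) : ℕ := sepB (kk t) (cc t Δ (kk t) * Δ) * ee t

def bb (t Δ i : ℕ) : ℕ := (KK t Δ + cc t Δ (kk t) + 1) * (Δ + 2) ^ i

lemma cc_succ (t Δ i : ℕ) : cc t Δ i + (cc t Δ i * Δ + 1) ≤ cc t Δ (i + 1) := by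
  have : 1 ≤ cc t Δ i := Nat.mul_pos (by omega) (by positivity)
  have e : cc t Δ (i + 1) = cc t Δ i * (Δ + 2) := by unfold cc; ring
  rw [e]; nlinarith

lemma bb_succ (t Δ i : ℕ) : KK t Δ + (bb t Δ i * Δ + 1) ≤ bb t Δ (i + 1) := by
  have : KK t Δ + cc t Δ (kk t) + 1 ≤ bb t Δ i := Nat.le_mul_of_pos_right _ (by positivity)
  have e : bb t Δ (i + 1) = bb t Δ i * (Δ + 2) := by unfold bb; ring
  rw [e]; nlinarith

theorem peelable {V D : Type} [DecidableEq V] [Fintype V] [Fintype D] [DecidableEq D]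
    {G : SimpleGraph V} (C : Ctx G D) {t Δ : ℕ} (ht : TreewidthLE G t)
    (hΔ : ∀ v, (G.neighborSet v).ncard ≤ Δ) : Peelable G (bb t Δ (kk t)) := by
  have hr : ∀ b X ord, C.Piece (kk t) (KK t Δ) b (cc t Δ (kk t)) (kk t) X ord →
      ∃ i < kk t, C.Piece (kk t) (KK t Δ) (bb t Δ i) (cc t Δ i) i X ord := fun b X ord h =>
    ⟨0, by unfold kk; omega, (Ctx.reset ht hΔ h).mono (by simp only [bb, pow_zero]; omega)
      (by simp only [cc, pow_zero]; omega)⟩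
  refine ⟨fun X ord => ∃ i < kk t, C.Piece (kk t) (KK t Δ) (bb t Δ i) (cc t Δ i) i X ord,
    fun v => hr 0 _ _ (C.top _ _ _ _ v), ?_⟩
  rintro X ord ⟨i, hi, h⟩
  refine C.step hΔ h ((bb_succ t Δ i).trans
    (Nat.mul_le_mul_left _ (Nat.pow_le_pow_right (by omega) hi))) _ fun Y rep k => ?_
  have k := k.mono (bb_succ t Δ i) (cc_succ t Δ i)
  rcases (show i + 1 ≤ kk t from hi).lt_or_eq with e | e
  · exact ⟨_, e, k⟩
  · rw [e] at k
    exact hr _ _ _ k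

lemma bb_le (t Δ : ℕ) : 100 * (bb t Δ (kk t) + 1) * (Δ + 1) ≤ (Δ + 2) ^ (60 * kk t) := by
  set x := Δ + 2 with hx
  obtain ⟨k, hk⟩ : ∃ k, k = kk t := ⟨_, rfl⟩
  have k1 : t + 5 ≤ k := by rw [hk]; unfold kk; nlinarith
  have k2 : k < 2 ^ k := Nat.lt_two_pow_self
  have k3 : 2 ^ k ≤ x ^ k := Nat.pow_le_pow_left (by omega) k
  have hxk : x ≤ x ^ k := Nat.le_self_pow (by omega) x
  obtain ⟨z, hz⟩ : ∃ z, z = x ^ k := ⟨_, rfl⟩
  rw [← hz] at k3 hxk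
  have he : ee t ≤ z ^ 2 := by
    unfold ee
    rw [← hk]
    nlinarith
  have hc : cc t Δ k ≤ z ^ 5 := by
    unfold cc
    rw [← hk, ← hx, ← hz]
    have h1 : 4 * k * ee t ≤ 4 * z * z ^ 2 := Nat.mul_le_mul (by omega) he
    have h2 : z ≤ z ^ 3 := Nat.le_self_pow (by omega) z
    have h3 : 5 * z ^ 3 ≤ z * z ^ 3 := Nat.mul_le_mul_right _ (by omega)
    calc (4 * k * ee t + (t + 1)) * z ≤ (z * z ^ 3) * z := Nat.mul_le_mul_right _ (by nlinarith)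
      _ = z ^ 5 := by ring
  obtain ⟨y, hy⟩ : ∃ y, y = z ^ 6 := ⟨_, rfl⟩
  have pw : ∀ n ≤ 6, z ^ n ≤ y := fun n h => hy ▸ Nat.pow_le_pow_right (by omega) h
  have zy : z ≤ y := by simpa using pw 1 (by omega)
  have h16 : 16 ≤ y := le_trans (by nlinarith) (pw 2 (by omega))
  have hcΔ : cc t Δ k * Δ ≤ y := by
    calc cc t Δ k * Δ ≤ z ^ 5 * z := Nat.mul_le_mul hc (by omega)
      _ = y := by rw [hy]; ring
  have hK : KK t Δ ≤ y ^ 5 := by
    unfold KK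
    rw [← hk]
    calc sepB k (cc t Δ k * Δ) * ee t ≤ (y * y ^ 3) * y := Nat.mul_le_mul ((sepB_mono k hcΔ).trans
          (Nat.mul_le_mul (by omega) (by nlinarith [Nat.mul_le_mul_right (y ^ 2) h16])))
          (he.trans (pw 2 (by omega)))
      _ = y ^ 5 := by ring
  have hb : bb t Δ k + 1 ≤ y ^ 7 := by
    have h0 := hc.trans (pw 5 (by omega))
    have h1 : bb t Δ k ≤ (y ^ 5 + y + 1) * y := by
      unfold bb
      rw [← hk, ← hx, ← hz]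
      exact Nat.mul_le_mul (by omega) zy
    have h2 : y ≤ y ^ 5 := Nat.le_self_pow (by omega) y
    have h4 : y ^ 7 = y * (y ^ 5 * y) := by ring
    have h5 : 16 * (y ^ 5 * y) ≤ y * (y ^ 5 * y) := Nat.mul_le_mul_right _ h16
    have h6 : (y ^ 5 + y + 1) * y ≤ (3 * y ^ 5) * y := Nat.mul_le_mul_right _ (by omega)
    have h7 : 1 ≤ y ^ 5 * y := Nat.mul_pos (by positivity) (by omega)
    nlinarith
  rw [← hk]
  calc 100 * (bb t Δ k + 1) * (Δ + 1) ≤ y ^ 2 * y ^ 7 * y :=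
        Nat.mul_le_mul (Nat.mul_le_mul (by nlinarith) hb) (by omega)
    _ = x ^ (60 * k) := by rw [hy, hz]; ring

theorem main {V : Type} [Fintype V] (G : SimpleGraph V) (t Δ : ℕ)
    (hΔ : ∀ v, (G.neighborSet v).ncard ≤ Δ) (P : Drawing G) (ht : TreewidthLE G t) :
    ∃ p : V → ℝ × ℝ, StraightLine G p ∧
      (slopes G p).ncard ≤ (Δ + 2) ^ (722880 * (t + 1) ^ 2) := by
  classical
  have h : 60 * kk t * 502 ≤ 722880 * (t + 1) ^ 2 := by
    unfold kk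
    nlinarith
  have h2 : 0 < Δ + 2 := by omega
  obtain ⟨D, _, _, ⟨C⟩⟩ := exists_ctx P
  obtain ⟨p, a, b⟩ := draw_pow G hΔ (peelable C ht hΔ)
  refine ⟨p, a, b.trans ?_⟩
  generalize 722880 * (t + 1) ^ 2 = n at h
  exact (Nat.pow_le_pow_left (bb_le t Δ) 502).trans
    ((pow_mul _ _ _).symm.le.trans (Nat.pow_le_pow_right h2 h))

end Pool.Agent.P.MP_845aff_co.TW
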