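import Pool.Agent.P.MP_845aff_co.TW.Level

/-! Faces outside the cut regions are at bounded radial distance through uncut vertices. -/

namespace Pool.Agent.P.MP_845aff_co.TW

open PMap Set

variable {V D : Type} [DecidableEq V] [Fintype D] [DecidableEq D] [Finite V] {G : SimpleGraph V}

namespace Ctx

variable (C : Ctx G D) (X : Set V) (d0 : D)

/-- a family of regions cut off by small cuts -/
structure Fam (𝓜 : Set (Set V)) (s L : ℕ) : Prop where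
  sub : ∀ R ∈ 𝓜, ∀ x ∈ R, x ∈ X ∧ C.lev X d0 x ≠ 0
  bsub : ∀ R ∈ 𝓜, ∀ x ∈ bd G R, x ∈ X
  conn : ∀ R ∈ 𝓜, Conn G R
  card : ∀ R ∈ 𝓜, (bd G R).ncard ≤ s
  path : ∀ R ∈ 𝓜, ∀ u ∈ bd G R, ∃ o, (o ∉ X ∨ C.lev X d0 o = 0) ∧
    Relation.ReflTransGen (rel G Rᶜ) u o
  far : ∀ R ∈ 𝓜, ∀ R' ∈ 𝓜, ∀ x ∈ R, x ∈ R' ∪ bd G R' → R = R'
  cov : ∀ v ∈ X, L < C.lev X d0 v → ∃ R ∈ 𝓜, v ∈ R

variable {C X d0}

theorem Fr.exists_fam (F : C.Fr X d0) {t : ℕ} (ht : TreewidthLE G t) :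
    ∃ 𝓜, C.Fam X d0 𝓜 (t + 1) (2 * t + 4) := by
  obtain ⟨𝓜, h1, h2, h3⟩ := laminar _ _ _ (F.small_cut ht)
  refine ⟨𝓜, fun R hR x hx => ?_, fun R hR x hx => ?_, fun R hR => (h1 R hR).2.1,
    fun R hR => (h1 R hR).2.2.2.1, fun R hR => (h1 R hR).2.2.2.2, h2,
    fun v a b => h3 v ⟨a, b⟩⟩
  · have := (h1 R hR).1.1 x hx
    simp only [mem_setOf_eq, not_or, not_not] at this
    exact this
  · have := ((h1 R hR).1.2 x hx).1
    simp only [mem_setOf_eq, not_or, not_not] at this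
    exact this.1

/-- the vertices outside all regions -/
def free (𝓜 : Set (Set V)) : Set V := {x | ∀ R ∈ 𝓜, x ∉ R}

variable {𝓜 : Set (Set V)} {s L : ℕ}

omit [DecidableEq D] [Finite V] in
lemma Fam.bd_free (H : C.Fam X d0 𝓜 s L) {R : Set V} (hR : R ∈ 𝓜) {u : V} (hu : u ∈ bd G R) :
    u ∈ free 𝓜 := fun R' h1 h2 => hu.1 (H.far R' h1 R hR u h2 (Or.inr hu) ▸ h2)

omit [DecidableEq D] [Finite V] in
lemma Fam.exit_eqv (F : C.Fr X d0) (H : C.Fam X d0 𝓜 s L) {R : Set V} (hR : R ∈ 𝓜) {g : D}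
    (h1 : C.M.tl g ∈ o R) (h2 : C.M.tl (C.M.a g) ∉ o R) : C.Eqv R d0 g := by
  have RX : R ⊆ X := fun x hx => (H.sub R hR x hx).1
  obtain ⟨x, hx, y, hy, -, e2, e3⟩ := C.exit_adj h1 h2
  obtain ⟨z, hz, p⟩ := H.path R hR y ⟨hy, x, hx, e3⟩
  have key : y ∈ X → y ∉ R → ∀ e, C.M.tl e = some y → C.Eqv R d0 e := by
    clear e2 e3 hy
    induction p using Relation.ReflTransGen.head_induction_on with
    | refl =>
      intro a b e he
      obtain ⟨d, d1, d2⟩ := F.lev_spec a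
      rw [hz.resolve_left fun k => k a] at d2
      exact ((eqv_cyc F.h0 d2).mono RX).trans (eqv_at b d1 he)
    | @head a b h _ ih =>
      intro aX aR e he
      refine Eqv.trans ?_ (eqv_at aR (C.gd1 _ _ h.1) he)
      by_cases bX : b ∈ X
      · exact (ih bX h.2.2 _ (C.gd2 _ _ h.1)).trans
          (eqv_a (by rw [C.gd2 _ _ h.1]; exact fun k => h.2.2 (some_mem_o.1 k))).symm
      · exact (eqv_cyc F.h0 (F.ext _ _ (C.gd_ext aX bX h.1))).mono RX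
  exact (key (H.bsub R hR y ⟨hy, x, hx, e3⟩) hy _ e2).trans (eqv_a h2).symm

lemma Fam.noose (F : C.Fr X d0) (H : C.Fam X d0 𝓜 s L) {R : Set V} (hR : R ∈ 𝓜) {g g' : D}
    (h1 : C.M.tl g ∈ o R) (h2 : C.M.tl (C.M.a g) ∉ o R) (h1' : C.M.tl g' ∈ o R)
    (h2' : C.M.tl (C.M.a g') ∉ o R) {m : ℕ} (h : C.FN X d0 (free 𝓜) m g) :
    C.FN X d0 (free 𝓜) (m + s + 1) g' := by
  have RX : R ⊆ X := fun x hx => (H.sub R hR x hx).1
  let T : ℕ → Set V := fun j =>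
    {u | u ∈ bd G R ∧ ∃ e, C.M.tl e = some u ∧ C.FN X d0 (free 𝓜) (m + j) e}
  obtain ⟨j, hj, hT⟩ : ∃ j ≤ s, T (j + 1) ⊆ T j := by
    by_contra hn
    push Not at hn
    have : ∀ j ≤ s + 1, j ≤ (T j).ncard := by
      intro j
      induction j with
      | zero => exact fun _ => Nat.zero_le _
      | succ j ih =>
        intro hj
        refine (ih (by omega)).trans_lt (ncard_lt_ncard ⟨?_, hn j (by omega)⟩)
        rintro u ⟨a, e, b, c⟩
        exact ⟨a, e, b, c.mono (by omega)⟩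
    have a := this _ le_rfl
    have b := ncard_le_ncard (show T (s + 1) ⊆ bd G R from fun u hu => hu.1)
    have c := H.card R hR
    omega
  refine FN.mono (n := m + (j + 1)) ?_ (by omega)
  refine cyc_ind (C.f R) (fun e => C.FN X d0 (free 𝓜) (m + (j + 1)) e) (h.mono (by omega))
    (fun e he ih => ?_) (C.orbit_child (H.conn R hR) h1 h1'
      ((H.exit_eqv F hR h1 h2).symm.trans (H.exit_eqv F hR h1' h2')))
  have eR := C.M.tl_of_cyc h1 he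
  by_cases k : C.M.tl (C.M.a e) ∈ o R
  · rw [C.f_in eR k, ← C.f_in (o_mono RX eR) (o_mono RX k)]
    exact ih.cyc (C.cyc_f X e)
  · obtain ⟨x, hx, y, hy, e1, e2, e3⟩ := C.exit_adj eR k
    have yb : y ∈ bd G R := ⟨hy, x, hx, e3⟩
    have yX : C.M.tl (C.M.a e) ∈ o X := by rw [e2]; exact some_mem_o.2 (H.bsub R hR y yb)
    obtain ⟨-, e', a, b⟩ := hT (a := y) ⟨yb, C.f X e, by
      rw [C.f_in (o_mono RX eR) yX, C.M.tl_s, e2], ih.cyc (C.cyc_f X e)⟩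
    have := (b.at (e' := C.M.a e) (by rw [a]; exact some_mem_o.2 (H.bd_free hR yb))
      (e2.trans a.symm)).cyc (C.cyc_f X _)
    rwa [C.f_in yX (by rw [C.M.aa]; exact o_mono RX eR), C.M.aa, ← C.f_out k] at this

lemma Fam.depth (F : C.Fr X d0) (H : C.Fam X d0 𝓜 s L) (n : ℕ) :
    (∀ d e, C.FN X d0 univ n d → (C.f X).SameCycle d e → C.M.tl e ∈ o (free 𝓜) →
      C.FN X d0 (free 𝓜) (n * (s + 1)) d) ∧
    ∀ d, ∀ R ∈ 𝓜, C.FN X d0 univ n d → C.M.tl d ∈ o R → ∃ g, C.M.tl g ∈ o R ∧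
      C.M.tl (C.M.a g) ∉ o R ∧ C.FN X d0 (free 𝓜) (n * (s + 1)) g := by
  induction n with
  | zero =>
    refine ⟨fun d e h _ _ => by rw [zero_mul]; exact h, ?_⟩
    rintro d R hR h ⟨x, hx, e⟩
    exact absurd (Nat.le_zero.1 (lev_le h e.symm)) (H.sub R hR x hx).2
  | succ n ih =>
    have ha : ∀ d e, C.FN X d0 univ (n + 1) d → (C.f X).SameCycle d e →
        C.M.tl e ∈ o (free 𝓜) → C.FN X d0 (free 𝓜) ((n + 1) * (s + 1)) d := by
      rintro d e (h | ⟨a, b, h1, ⟨u, -, hu⟩, h3, h4⟩) k1 k2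
      · exact (ih.1 d e h k1 k2).mono (by rw [add_mul]; omega)
      by_cases uf : u ∈ free 𝓜
      · have k3 : C.M.tl a ∈ o (free 𝓜) := ⟨u, uf, hu⟩
        exact (((ih.1 a a h1 (.refl _ _) k3).at k3 h3).cyc h4).mono (by rw [add_mul]; omega)
      · simp only [free, mem_setOf_eq, not_forall, not_not] at uf
        obtain ⟨R, hR, uR⟩ := uf
        obtain ⟨g, g1, g2, g3⟩ := ih.2 a R hR h1 ⟨u, uR, hu⟩
        obtain ⟨g', p1, p2, p3⟩ := C.face_exit (R := R) ⟨u, uR, hu.trans h3.symm⟩ (h4.trans k1)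
          (by
            obtain ⟨z, hz, ez⟩ := k2
            rw [← ez]
            exact fun k => hz R hR (some_mem_o.1 k))
        exact ((H.noose F hR g1 g2 p2 p3 g3).cyc (p1.symm.trans h4)).mono
          (by rw [add_mul]; omega)
    refine ⟨ha, fun d R hR h hd => ?_⟩
    by_cases k : ∃ e, (C.f X).SameCycle d e ∧ C.M.tl e ∉ o R
    · obtain ⟨e, e1, e2⟩ := k
      obtain ⟨g, g1, g2, g3⟩ := C.face_exit hd e1 e2
      obtain ⟨x, hx, y, hy, a1, a2, a3⟩ := C.exit_adj g2 g3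
      have yb : y ∈ bd G R := ⟨hy, x, hx, a3⟩
      refine ⟨g, g2, g3, ha g _ (h.cyc g1) (C.cyc_f X g) ?_⟩
      rw [C.f_in (by rw [a1]; exact some_mem_o.2 (H.sub R hR x hx).1)
        (by rw [a2]; exact some_mem_o.2 (H.bsub R hR y yb)), C.M.tl_s, a2]
      exact some_mem_o.2 (H.bd_free hR yb)
    · push Not at k
      obtain ⟨g, g1, g2, g3⟩ : ∃ g, C.M.tl g ∈ o R ∧ C.M.tl (C.M.a g) ∉ o R ∧
          C.FN X d0 (free 𝓜) (n * (s + 1)) g := by
        rcases h with h | ⟨a, b, h1, -, h3, h4⟩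
        exacts [ih.2 d R hR h hd, ih.2 a R hR h1 (h3 ▸ k b h4.symm)]
      exact ⟨g, g1, g2, g3.mono (by rw [add_mul]; omega)⟩

lemma Fam.good (F : C.Fr X d0) (H : C.Fam X d0 𝓜 s L) {v : V} (h1 : v ∈ X) (h2 : v ∈ free 𝓜)
    {e : D} (he : C.M.tl e = some v) : C.FN X d0 (free 𝓜) ((L + 1) * (s + 1)) e := by
  refine (H.depth F _).1 e e ((F.fn_at h1 he).mono ?_) (.refl _ _) ⟨v, h2, he.symm⟩
  by_contra hn
  obtain ⟨R, a, b⟩ := H.cov v h1 (by omega)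
  exact h2 R a b

end Ctx

end Pool.Agent.P.MP_845aff_co.TW
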