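import Pool.Agent.P.MP_845aff_co.Sep

/-! Separators in a planar map with a spanning tree of small depth. -/

namespace Pool.Agent.P.MP_845aff_co.TW

open PMap Finset

variable {D W : Type} [Fintype D] [DecidableEq D] [DecidableEq W]

structure Tr (M : PMap D W) (k : ℕ) where
  z : W
  par : W → W
  lev : W → ℕ
  td : W → D
  h : ∀ d, M.tl d ≠ z → M.tl (td (M.tl d)) = M.tl d ∧ M.tl (M.a (td (M.tl d))) = par (M.tl d) ∧
    lev (par (M.tl d)) < lev (M.tl d)
  hk : ∀ d, lev (M.tl d) < k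

def sepB (k w : ℕ) : ℕ := k * (w + 2 + 2 * (2 * (w + 2) + 2) ^ 2)

lemma sepB_mono (k : ℕ) {a b : ℕ} (h : a ≤ b) : sepB k a ≤ sepB k b := by
  unfold sepB; gcongr

namespace Tr

variable {M : PMap D W} {k : ℕ} (C : Tr M k)

def nr (v : W) : Prop := (∃ d, M.tl d = v) ∧ v ≠ C.z

def up (a b : W) : Prop := Relation.ReflTransGen (fun a b => C.nr a ∧ C.par a = b) a b

omit [DecidableEq D] in
lemma spec {v : W} (h : C.nr v) : M.tl (C.td v) = v ∧ M.tl (M.a (C.td v)) = C.par v ∧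
    C.lev (C.par v) < C.lev v := by
  obtain ⟨⟨d, rfl⟩, h⟩ := h
  exact C.h d h

omit [DecidableEq D] in
lemma up_refl (a : W) : C.up a a := Relation.ReflTransGen.refl

omit [DecidableEq D] in
lemma up_lev {a b : W} (h : C.up a b) : a = b ∨ C.lev b < C.lev a := by
  induction h with
  | refl => exact Or.inl rfl
  | tail _ h2 ih =>
    have := (C.spec h2.1).2.2
    rw [h2.2] at this
    rcases ih with rfl | ih
    · exact Or.inr this
    · exact Or.inr (this.trans ih)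

omit [DecidableEq D] in
lemma up_inj {v a b : W} (h : C.up v a) (h' : C.up v b) (e : C.lev a = C.lev b) : a = b := by
  rcases Relation.ReflTransGen.total_of_right_unique
    (fun _ _ _ h1 h2 => h1.2.symm.trans h2.2) h h' with k | k <;> rcases C.up_lev k with k | k
  · exact k
  · omega
  · exact k.symm
  · omega

omit [DecidableEq D] in
lemma up_on {d : D} {b : W} (h : C.up (M.tl d) b) : ∃ e, M.tl e = b := by
  induction h with
  | refl => exact ⟨d, rfl⟩
  | tail _ h2 _ => exact ⟨_, (C.spec h2.1).2.1.trans h2.2⟩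

omit [DecidableEq D] in
lemma up_root (d : D) : C.up (M.tl d) C.z := by
  induction hn : C.lev (M.tl d) using Nat.strong_induction_on generalizing d with
  | _ n ih =>
    by_cases h : M.tl d = C.z
    · rw [h]; exact C.up_refl _
    · obtain ⟨-, h2, h3⟩ := C.h d h
      exact Relation.ReflTransGen.head ⟨⟨⟨d, rfl⟩, h⟩, h2.symm⟩
        (ih _ (by rw [h2, ← hn]; exact h3) _ rfl)

open Classical in
noncomputable def A (p : D) : Finset W := (univ.image M.tl).filter fun y => C.up (M.tl p) y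

omit [DecidableEq D] in
lemma mem_A {p : D} {y : W} : y ∈ C.A p ↔ C.up (M.tl p) y := by
  simp only [A, mem_filter, mem_image, mem_univ, true_and]
  exact ⟨fun h => h.2, fun h => ⟨C.up_on h, h⟩⟩

omit [DecidableEq D] in
lemma card_A (p : D) : (C.A p).card ≤ k := by
  refine le_trans (card_le_card_of_injOn (t := range k) C.lev (fun y hy => ?_)
    fun a ha b hb e => C.up_inj (C.mem_A.1 ha) (C.mem_A.1 hb) e) (card_range k).le
  obtain ⟨e, rfl⟩ := C.up_on (C.mem_A.1 hy)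
  simpa using C.hk e

lemma contour (d1 : D) : ∃ (pos : D → ℕ) (F : D → Prop), Function.Injective pos ∧
    (∀ d, F d → ∃ v, C.nr v ∧ (d = C.td v ∨ d = M.a (C.td v))) ∧ (∀ d, F d → F (M.a d)) ∧
    (∀ d e, ¬ F d → ¬ F e → pos d < pos e → pos e < pos (M.a d) →
      pos (M.a d) < pos (M.a e) → False) ∧
    ∀ y d e d', y ∈ C.A d → y ∈ C.A d' → pos d ≤ pos e → pos e ≤ pos d' → y ∈ C.A e := by
  classical
  let R : W → W → Prop := fun x y => ∃ d', (∃ v, C.nr v ∧ (d' = C.td v ∨ d' = M.a (C.td v))) ∧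
    M.tl d' = x ∧ M.tl (M.a d') = y
  have root : ∀ x y, C.up x y → Relation.ReflTransGen R x y ∧ Relation.ReflTransGen R y x := by
    intro x y h
    induction h with
    | refl => exact ⟨.refl, .refl⟩
    | @tail a b _ h ih =>
      obtain ⟨h, rfl⟩ := h
      obtain ⟨h1, h2, -⟩ := C.spec h
      exact ⟨ih.1.tail ⟨_, ⟨a, h, Or.inl rfl⟩, h1, h2⟩,
        .head ⟨_, ⟨a, h, Or.inr rfl⟩, h2, by rw [M.aa, h1]⟩ ih.2⟩
  obtain ⟨M', -, F, F1, F2, F3, F4⟩ := PMap.blob (fun _ : W => ())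
    (fun d => ∃ v, C.nr v ∧ (d = C.td v ∨ d = M.a (C.td v))) _ M rfl
    (by
      rintro d ⟨v, h, rfl | rfl⟩
      · exact ⟨v, h, Or.inr rfl⟩
      · exact ⟨v, h, Or.inl (M.aa _)⟩)
    (fun _ _ => rfl) (fun d e _ => (root _ _ (C.up_root d)).1.trans (root _ _ (C.up_root e)).2)
  obtain ⟨d0, hd0⟩ := C.up_on (C.up_root d1)
  have hex : ∀ d, ∃ k < per M'.s d0, el M'.s d0 k = d := fun d => exists_el _ _ (M'.cyc _ _ rfl)
  choose pos p1 p2 using hex
  refine ⟨pos, F, fun d e h => by rw [← p2 d, h, p2], F1, F2, ?_, ?_⟩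
  · intro d e hd he h1 h2 h3
    obtain ⟨w, w1, w2⟩ := M'.pot0 (M'.ec_chain d) (fun x => by rw [ec_bdry, z2])
    have st : ∀ x, w (M'.s x) = w x + (ind x (el M'.s d0 (pos d)) +
        ind x (el M'.s d0 (pos (M.a d)))) := by
      intro x; rw [p2, p2, w1, ec, (F4 d hd).1]
    have a1 := el_jump M'.s d0 w (h1.trans h2) (p1 _) st h1 (p1 _)
    have a2 := el_jump M'.s d0 w (h1.trans h2) (p1 _) st (h1.trans (h2.trans h3)) (p1 _)
    rw [p2, p2, if_pos h2.le] at a1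
    rw [p2, p2, if_neg (by omega)] at a2
    have a3 := w2 e
    have n1 : e ≠ d := fun h => by rw [h] at h1; omega
    have n2 : e ≠ M.a d := fun h => by rw [h] at h2; omega
    rw [(F4 e he).1, ec, (F4 d hd).1, ind_ne n1, ind_ne n2, a1, a2] at a3
    simp at a3
  · intro y d e d' hd hd' h1 h2
    by_cases hy : y = C.z
    · rw [hy]; exact C.mem_A.2 (C.up_root e)
    have := interval_of_exit M'.s d0 {d | y ∈ C.A d} (by
      intro h
      have h := C.mem_A.1 h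
      rw [hd0] at h
      rcases Relation.ReflTransGen.cases_head h with h | ⟨c, c1, -⟩
      exacts [hy h.symm, c1.1.2 rfl]) (C.td y) (by
      intro x hx hn
      simp only [Set.mem_ofPred_eq, mem_A] at hx hn
      by_cases hF : F x
      · rw [(F3 x hF).2, M.tl_s] at hn
        obtain ⟨v, hv, rfl | rfl⟩ := F1 x hF
        · rw [(C.spec hv).2.1] at hn
          rw [(C.spec hv).1] at hx
          rcases Relation.ReflTransGen.cases_head hx with rfl | ⟨c, c1, c2⟩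
          · rfl
          · exact absurd (c1.2 ▸ c2) hn
        · rw [M.aa, (C.spec hv).1] at hn
          rw [(C.spec hv).2.1] at hx
          exact absurd (Relation.ReflTransGen.head ⟨hv, rfl⟩ hx) hn
      · rw [(F4 x hF).2, M.tl_s] at hn
        exact absurd hx hn) h1 h2 (p1 _) (by rw [p2]; exact hd) (by rw [p2]; exact hd')
    rwa [p2] at this

theorem separator (d1 : D) (W0 : Finset D) : ∃ Z : Finset W, (∀ d ∈ W0, M.tl d ∈ Z) ∧
    Z.card ≤ sepB k W0.card ∧ (∀ x ∈ Z, ∀ y, C.up x y → y ∈ Z) ∧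
    ∀ y, M.tl y ∉ Z → ∃ B : Finset W, B.card ≤ 4 * k ∧ B ⊆ Z ∧ ∃ Γ : Set W, M.tl y ∈ Γ ∧
      (∀ x ∈ Γ, x ∉ Z) ∧ (∀ d, M.tl d ∈ Γ → M.tl (M.a d) ∈ B ∨ M.tl (M.a d) ∈ Γ) ∧
      ∀ d, ∀ x ∈ Γ, C.up (M.tl d) x → M.tl d ∈ Γ := by
  classical
  obtain ⟨pos, F, hinj, F1, F2, nc, hint⟩ := C.contour d1
  obtain ⟨mn, -, mn2⟩ := exists_min_image univ pos ⟨d1, mem_univ _⟩
  obtain ⟨mx, -, mx2⟩ := exists_max_image univ pos ⟨d1, mem_univ _⟩
  let P0 : Finset D := insert mn (insert mx W0)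
  have hP0 : P0.card ≤ W0.card + 2 := by
    have h1 := card_insert_le mn (insert mx W0)
    have h2 := card_insert_le mx W0
    simp only [P0]; omega
  obtain ⟨P, P1, P2, P3⟩ := cut_lemma pos hinj M.a M.aa (fun d => ¬ F d)
    (fun d hd h => hd (by rw [← M.aa d]; exact F2 _ h)) nc P0
    ⟨mn, by simp [P0], fun d => mn2 d (mem_univ _)⟩ ⟨mx, by simp [P0], fun d => mx2 d (mem_univ _)⟩
  have tA : ∀ d, M.tl d ∈ C.A d := fun d => C.mem_A.2 (C.up_refl _)
  refine ⟨P.biUnion C.A, fun d hd => ?_, ?_, ?_, fun y hy => ?_⟩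
  · exact mem_biUnion.2 ⟨d, P1 (mem_insert_of_mem (mem_insert_of_mem hd)), tA d⟩
  · refine (card_biUnion_le_card_mul P C.A k fun p _ => C.card_A p).trans ?_
    have : (2 * P0.card + 2) ^ 2 ≤ (2 * (W0.card + 2) + 2) ^ 2 := by gcongr
    unfold sepB
    rw [mul_comm]
    exact Nat.mul_le_mul_left _ (by omega)
  · intro v hv c hc
    obtain ⟨p, hp, hv⟩ := mem_biUnion.1 hv
    exact mem_biUnion.2 ⟨p, hp, C.mem_A.2 ((C.mem_A.1 hv).trans hc)⟩
  have hy' : y ∉ P := fun h => hy (mem_biUnion.2 ⟨_, h, tA y⟩)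
  obtain ⟨p, hp, q, hq, p', hp', q', hq', h1, h2, h3⟩ := P3 _ hy'
  let B := C.A p ∪ C.A q ∪ C.A p' ∪ C.A q'
  let Γ : D → Prop := fun d => (pos p < pos d ∧ pos d < pos q) ∨ (pos p' < pos d ∧ pos d < pos q')
  have BZ : ∀ v ∈ B, v ∈ P.biUnion C.A := by
    intro v hv
    simp only [B, mem_union] at hv
    rcases hv with ((h | h) | h) | h
    exacts [mem_biUnion.2 ⟨_, hp, h⟩, mem_biUnion.2 ⟨_, hq, h⟩, mem_biUnion.2 ⟨_, hp', h⟩,
      mem_biUnion.2 ⟨_, hq', h⟩]
  have K1 : ∀ d v, ((pos p ≤ pos d ∧ pos d ≤ pos q) ∨ (pos p' ≤ pos d ∧ pos d ≤ pos q')) →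
      v ∈ C.A d → v ∉ B → ∀ d', v ∈ C.A d' → Γ d' := by
    intro d v hd hv hB d' hd'
    simp only [B, mem_union, not_or] at hB
    rcases hd with hd | hd
    · left
      constructor
      · by_contra h; exact hB.1.1.1 (hint v d' p d hd' hv (by omega) hd.1)
      · by_contra h; exact hB.1.1.2 (hint v d q d' hv hd' hd.2 (by omega))
    · right
      constructor
      · by_contra h; exact hB.1.2 (hint v d' p' d hd' hv (by omega) hd.1)
      · by_contra h; exact hB.2 (hint v d q' d' hv hd' hd.2 (by omega))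
  have wk : ∀ d, Γ d → (pos p ≤ pos d ∧ pos d ≤ pos q) ∨ (pos p' ≤ pos d ∧ pos d ≤ pos q') := by
    intro d hd; simp only [Γ] at hd; omega
  have K2 : ∀ x, (x ∉ B ∧ ∃ d, M.tl d = x ∧ Γ d) → ∀ d', x ∈ C.A d' → Γ d' := by
    rintro _ ⟨hx, d, rfl, hd⟩
    exact K1 d _ (wk _ hd) (tA d) hx
  refine ⟨B, ?_, BZ, {x | x ∉ B ∧ ∃ d, M.tl d = x ∧ Γ d},
    ⟨fun h => hy (BZ _ h), y, rfl, Or.inl h1⟩, ?_, ?_, ?_⟩
  · have a1 := card_union_le (C.A p ∪ C.A q ∪ C.A p') (C.A q')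
    have a2 := card_union_le (C.A p ∪ C.A q) (C.A p')
    have a3 := card_union_le (C.A p) (C.A q)
    have := C.card_A p; have := C.card_A q; have := C.card_A p'; have := C.card_A q'
    simp only [B]; omega
  · intro x hx hZ
    obtain ⟨r, hr, hr'⟩ := mem_biUnion.1 hZ
    exact h2 r hr (K2 x hx r hr')
  · intro d hd
    refine (em _).imp id fun hB => ⟨hB, _, rfl, ?_⟩
    have e1 := K2 _ hd d (tA d)
    by_cases hF : F d
    · obtain ⟨u, hu, rfl | rfl⟩ := F1 _ hF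
      · refine K1 _ _ (wk _ e1) (C.mem_A.2 ?_) hB _ (tA _)
        rw [(C.spec hu).1, (C.spec hu).2.1]
        exact .single ⟨hu, rfl⟩
      · refine K2 _ hd _ (C.mem_A.2 ?_)
        rw [M.aa, (C.spec hu).1, (C.spec hu).2.1]
        exact .single ⟨hu, rfl⟩
    · exact K1 _ _ (h3 _ e1 hF) (tA _) hB _ (tA _)
  · intro d x hx hu
    refine ⟨fun hB => hx.1 ?_, d, rfl, K2 x hx d (C.mem_A.2 hu)⟩
    simp only [B, mem_union, mem_A] at hB ⊢
    rcases hB with ((h | h) | h) | h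
    exacts [Or.inl (Or.inl (Or.inl (h.trans hu))), Or.inl (Or.inl (Or.inr (h.trans hu))),
      Or.inl (Or.inr (h.trans hu)), Or.inr (h.trans hu)]

end Tr

end Pool.Agent.P.MP_845aff_co.TW
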