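import Pool.Agent.P.MP_845aff_co.TW.Noose
import Pool.Agent.P.MP_845aff_co.TW.Maps
import Pool.Agent.P.MP_845aff_co.TW.SepW

/-! The radial map of a piece with the cut regions contracted, and its shallow tree. -/

namespace Pool.Agent.P.MP_845aff_co.TW

open PMap Set

lemma exists_tr {E W : Type} [Fintype E] [DecidableEq W] (M : PMap E W) (k : ℕ) (z : W)
    (lev : W → ℕ) (P : W → W → Prop) (x0 : E) (hk : ∀ x, lev (M.tl x) < k)
    (h : ∀ x, M.tl x ≠ z → ∃ y, M.tl y = M.tl x ∧ lev (M.tl (M.a y)) < lev (M.tl x) ∧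
      P (M.tl x) (M.tl (M.a y))) :
    ∃ T : Tr M k, T.z = z ∧ ∀ w, T.nr w → P w (T.par w) := by
  have : ∀ w, ∃ y, (∃ x, M.tl x = w) ∧ w ≠ z → M.tl y = w ∧ lev (M.tl (M.a y)) < lev w ∧
      P w (M.tl (M.a y)) := by
    intro w
    by_cases hw : (∃ x, M.tl x = w) ∧ w ≠ z
    · obtain ⟨⟨x, rfl⟩, hx⟩ := hw
      obtain ⟨y, hy⟩ := h x hx
      exact ⟨y, fun _ => hy⟩
    · exact ⟨x0, fun k => absurd k hw⟩
  choose td htd using this
  exact ⟨⟨z, fun w => M.tl (M.a (td w)), lev, td, fun d hd =>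
    ⟨(htd _ ⟨⟨d, rfl⟩, hd⟩).1, rfl, (htd _ ⟨⟨d, rfl⟩, hd⟩).2.1⟩, hk⟩, rfl,
    fun w hw => (htd w hw).2.2⟩

variable {V D : Type} [DecidableEq V] [Fintype D] [DecidableEq D] [Finite V] {G : SimpleGraph V}

/-- the class of a vertex: its region, or the vertex alone -/
def cls (𝓜 : Set (Set V)) (v : V) : Set V := {u | u = v ∨ ∃ R ∈ 𝓜, v ∈ R ∧ u ∈ R}

namespace Ctx

variable {C : Ctx G D} {X : Set V} {d0 : D} {𝓜 : Set (Set V)} {s L : ℕ}

omit [DecidableEq V] [Finite V] in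
lemma cls_free {v : V} (h : v ∈ free 𝓜) : cls 𝓜 v = {v} := by
  ext u
  exact ⟨fun k => k.elim id fun ⟨R, a, b, _⟩ => absurd b (h R a), Or.inl⟩

omit [DecidableEq D] [Finite V] in
lemma Fam.cls_mem (H : C.Fam X d0 𝓜 s L) {R : Set V} (hR : R ∈ 𝓜) {v : V} (h : v ∈ R) :
    cls 𝓜 v = R := by
  ext u
  refine ⟨?_, fun k => Or.inr ⟨R, hR, h, k⟩⟩
  rintro (rfl | ⟨R', a, b, c⟩)
  exacts [h, H.far R' a R hR v b (Or.inl h) ▸ c]

omit [DecidableEq V] [Finite V] in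
lemma free_or (𝓜 : Set (Set V)) (v : V) : v ∈ free 𝓜 ∨ ∃ R ∈ 𝓜, v ∈ R := by
  by_contra hn
  push Not at hn
  exact hn.1 hn.2

/-- a face as a set of darts -/
def fc (C : Ctx G D) (X : Set V) (d : D) : Set D := {e | (C.f X).SameCycle d e}

omit [DecidableEq D] [Finite V] in
lemma fc_eq {d e : D} : C.fc X d = C.fc X e ↔ (C.f X).SameCycle d e := by
  constructor
  · intro h
    have : e ∈ C.fc X e := Equiv.Perm.SameCycle.refl _ _
    rwa [← h] at this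
  · intro h
    ext x
    exact ⟨fun k => h.symm.trans k, fun k => h.trans k⟩

omit [Finite V] in
open Classical in
theorem Fam.quot (H : C.Fam X d0 𝓜 s L) :
    ∃ (E : Type) (_ : Fintype E) (_ : DecidableEq E) (M : PMap E (Set V ⊕ Set D)),
      (∀ x, (∃ v ∈ X, M.tl x = .inl (cls 𝓜 v)) ∨
        ∃ d, C.M.tl d ∈ o X ∧ M.tl x = .inr (C.fc X d)) ∧
      (∀ d, ∀ v ∈ X, C.M.tl d = some v →
        ∃ x, M.tl x = .inl (cls 𝓜 v) ∧ M.tl (M.a x) = .inr (C.fc X d)) ∧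
      ∀ u ∈ X, ∀ v ∈ X, G.Adj u v → cls 𝓜 u ≠ cls 𝓜 v →
        ∃ x, M.tl x = .inl (cls 𝓜 u) ∧ M.tl (M.a x) = .inl (cls 𝓜 v) := by
  let M1 := TW.sub C.M (o X)
  let M2 := radial M1
  let q : Option V ⊕ Set {d // C.M.tl d ∈ o X} → Set V ⊕ Set D :=
    Sum.map (fun x => x.elim ∅ (cls 𝓜)) (image Subtype.val)
  have hf : ∀ d, Subtype.val '' face M1 d = C.fc X d.1 := by
    intro d
    have e : ∀ e, (M1.s * M1.a).SameCycle d e ↔ (C.f X).SameCycle d.1 e.1 := fun e =>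
      Equiv.Perm.sameCycle_subtypePerm (f := C.f X) (p := fun d => C.M.tl d ∈ o X)
        (h := fun d => ⟨fun h => C.M.tl_of_cyc h (C.cyc_f X d).symm, fun h => C.M.tl_fX h⟩)
    ext x
    constructor
    · rintro ⟨y, hy, rfl⟩
      exact (e y).1 hy
    · exact fun h => ⟨⟨x, C.M.tl_of_cyc d.2 h⟩, (e _).2 h, rfl⟩
  have hg : ∀ u ∈ X, ∀ v ∈ X, G.Adj u v →
      ∃ x, M2.tl x = .inl (some u) ∧ M2.tl (M2.a x) = .inl (some v) := by
    intro u hu v hv h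
    have a : C.M.tl (C.gd u v) ∈ o X := by rw [C.gd1 _ _ h]; exact some_mem_o.2 hu
    refine ⟨.inl ⟨C.gd u v, a⟩, congrArg Sum.inl (C.gd1 _ _ h), congrArg Sum.inl ?_⟩
    show C.M.tl (C.M.aX (o X) (C.gd u v)) = _
    rw [C.M.aX_in a (by rw [C.gd2 _ _ h]; exact some_mem_o.2 hv), C.gd2 _ _ h]
  have ht : ∀ x, (∃ v ∈ X, M2.tl x = .inl (some v)) ∨ ∃ d, M2.tl x = .inr (face M1 d) := by
    rintro (⟨d, v, hv, e⟩ | ⟨d, v, hv, e⟩ | d)
    exacts [Or.inl ⟨v, hv, congrArg Sum.inl e.symm⟩, Or.inl ⟨v, hv, congrArg Sum.inl e.symm⟩,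
      Or.inr ⟨d, rfl⟩]
  obtain ⟨M, h1, F, h2, -, -, h5⟩ := PMap.blob q (fun d => q (M2.tl d) = q (M2.tl (M2.a d))) _ M2
    rfl (fun d hd => by rw [M2.aa]; exact hd.symm) (fun d hd => hd) (by
      intro d e h
      rcases ht d with ⟨u, hu, a⟩ | ⟨d', a⟩ <;> rcases ht e with ⟨v, hv, b⟩ | ⟨e', b⟩ <;>
        rw [a, b] at h ⊢
      · replace h : cls 𝓜 u = cls 𝓜 v := Sum.inl.inj h
        have vv : v ∈ cls 𝓜 u := h ▸ Or.inl rfl
        rcases vv with rfl | ⟨R, hR, uR, vR⟩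
        · exact .refl
        have := H.conn R hR u uR v vR
        clear a b h hv vR
        induction this with
        | refl => exact .refl
        | tail _ k ih =>
          obtain ⟨x, x1, x2⟩ := hg _ (H.sub R hR _ k.2.1).1 _ (H.sub R hR _ k.2.2).1 k.1
          refine ih.tail ⟨x, ?_, x1, x2⟩
          rw [x1, x2]
          exact congrArg Sum.inl ((H.cls_mem hR k.2.1).trans (H.cls_mem hR k.2.2).symm)
      · exact absurd h Sum.inl_ne_inr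
      · exact absurd h Sum.inr_ne_inl
      · rw [Subtype.val_injective.image_injective (Sum.inr.inj h)])
  have key : ∀ x, q (M2.tl x) ≠ q (M2.tl (M2.a x)) → M.tl (M.a x) = q (M2.tl (M2.a x)) :=
    fun x hx => by rw [h1, (h5 x fun k => hx (h2 x k)).1]
  refine ⟨_, inferInstance, inferInstance, M, fun x => ?_, fun d v hv e => ?_,
    fun u hu v hv h hn => ?_⟩
  · rcases ht x with ⟨v, hv, a⟩ | ⟨d, a⟩
    · exact Or.inl ⟨v, hv, by rw [h1, a]; rfl⟩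
    · exact Or.inr ⟨d.1, d.2, by rw [h1, a, ← hf]; rfl⟩
  · have a : C.M.tl d ∈ o X := ⟨v, hv, e.symm⟩
    refine ⟨.inr (.inl ⟨d, a⟩), ?_, (key (.inr (.inl ⟨d, a⟩)) Sum.inl_ne_inr).trans
      (congrArg Sum.inr (hf ⟨d, a⟩))⟩
    rw [h1]
    show Sum.inl ((C.M.tl d).elim ∅ (cls 𝓜)) = _
    rw [e]
    rfl
  · obtain ⟨x, x1, x2⟩ := hg u hu v hv h
    refine ⟨x, by rw [h1, x1]; rfl, ?_⟩
    rw [key x (by rw [x1, x2]; exact fun k => hn (Sum.inl.inj k)), x2]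
    rfl

theorem Fam.tree (F : C.Fr X d0) (H : C.Fam X d0 𝓜 s L) {E : Type} [Fintype E]
    [DecidableEq (Set V ⊕ Set D)] (M : PMap E (Set V ⊕ Set D))
    (m1 : ∀ x, (∃ v ∈ X, M.tl x = .inl (cls 𝓜 v)) ∨
        ∃ d, C.M.tl d ∈ o X ∧ M.tl x = .inr (C.fc X d))
    (m2 : ∀ d, ∀ v ∈ X, C.M.tl d = some v →
        ∃ x, M.tl x = .inl (cls 𝓜 v) ∧ M.tl (M.a x) = .inr (C.fc X d))
    (m3 : ∀ u ∈ X, ∀ v ∈ X, G.Adj u v → cls 𝓜 u ≠ cls 𝓜 v →
        ∃ x, M.tl x = .inl (cls 𝓜 u) ∧ M.tl (M.a x) = .inl (cls 𝓜 v)) :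
    ∃ T : Tr M (2 * ((L + 1) * (s + 1)) + 4), ∀ v ∈ X, v ∈ free 𝓜 → ∃ d, C.M.tl d = some v ∧
      ((C.f X).SameCycle d0 d ∨ ∃ u ∈ X, u ∈ free 𝓜 ∧ T.up (.inl {v}) (.inl {u}) ∧
        T.lev (.inl {u}) < T.lev (.inl {v}) ∧ ∃ e, C.M.tl e = some u ∧ (C.f X).SameCycle d e) := by
  classical
  set m := (L + 1) * (s + 1) with hm
  let N : Set D → ℕ := fun T => sInf {n | ∃ d ∈ T, C.FN X d0 (free 𝓜) n d}
  have N1 : ∀ T n, ∀ d ∈ T, C.FN X d0 (free 𝓜) n d → N T ≤ n :=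
    fun T n d a b => Nat.sInf_le ⟨d, a, b⟩
  have N2 : ∀ T n, ∀ d ∈ T, C.FN X d0 (free 𝓜) n d → ∃ d ∈ T, C.FN X d0 (free 𝓜) (N T) d :=
    fun T n d a b => Nat.sInf_mem (s := {n | ∃ d ∈ T, C.FN X d0 (free 𝓜) n d}) ⟨n, d, a, b⟩
  let lev : Set V ⊕ Set D → ℕ := Sum.elim
    (fun S => if ∃ v ∈ S, v ∈ free 𝓜 then 2 * N {d | C.M.tl d ∈ o S} + 1 else 2 * m + 2)
    fun T => if ∃ d ∈ T, C.FN X d0 (free 𝓜) m d then 2 * N T else 2 * m + 3
  have l1 : ∀ v ∈ free 𝓜, lev (.inl {v}) = 2 * N {d | C.M.tl d ∈ o {v}} + 1 :=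
    fun v hv => if_pos ⟨v, rfl, hv⟩
  have l2 : ∀ v ∈ X, v ∈ free 𝓜 → lev (.inl {v}) ≤ 2 * m + 1 := fun v a b => by
    have := N1 {d | C.M.tl d ∈ o {v}} _ (C.td v) ⟨v, rfl, (C.td1 v).symm⟩ (H.good F a b (C.td1 v))
    rw [l1 v b]
    omega
  have l3 : ∀ R ∈ 𝓜, lev (.inl R) = 2 * m + 2 := fun R hR => if_neg fun ⟨_, a, b⟩ => b R hR a
  have l4 : ∀ v ∈ X, lev (.inl (cls 𝓜 v)) ≤ 2 * m + 2 := fun v hv => by
    rcases free_or 𝓜 v with h | ⟨R, hR, h⟩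
    · rw [cls_free h]; exact (l2 v hv h).trans (by omega)
    · rw [H.cls_mem hR h, l3 R hR]
  have l5 : ∀ d e, e ∈ C.fc X d → C.FN X d0 (free 𝓜) m e →
      lev (.inr (C.fc X d)) = 2 * N (C.fc X d) := fun d e a b => if_pos ⟨e, a, b⟩
  have sf : ∀ d, d ∈ C.fc X d := fun d => Equiv.Perm.SameCycle.refl _ _
  obtain ⟨v0, hv0, e0⟩ := F.h0
  obtain ⟨x0, -⟩ := m2 d0 v0 hv0 e0.symm
  obtain ⟨T, T1, T2⟩ := exists_tr M (2 * m + 4) (.inr (C.fc X d0)) lev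
    (fun w w' => (∀ v ∈ free 𝓜, w = .inl {v} → ∃ d, C.M.tl d = some v ∧ w' = .inr (C.fc X d)) ∧
      ∀ d, w = .inr (C.fc X d) → C.FN X d0 (free 𝓜) m d → ∃ u ∈ X, u ∈ free 𝓜 ∧
        w' = .inl {u} ∧ ∃ e, C.M.tl e = some u ∧ (C.f X).SameCycle d e) x0
    (by
      intro x
      rcases m1 x with ⟨v, hv, a⟩ | ⟨d, -, a⟩ <;> rw [a]
      · exact (l4 v hv).trans_lt (by omega)
      · by_cases k : ∃ e ∈ C.fc X d, C.FN X d0 (free 𝓜) m e
        · obtain ⟨e, b, c⟩ := k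
          have := N1 _ _ e b c
          rw [l5 d e b c]
          omega
        · exact (if_neg k).trans_lt (by omega))
    (by
      intro x hx
      rcases m1 x with ⟨v, hv, a⟩ | ⟨d, hd, a⟩ <;> rw [a] at hx ⊢
      · rcases free_or 𝓜 v with h | ⟨R, hR, h⟩
        · obtain ⟨d, ⟨_, rfl, d1⟩, d2⟩ := N2 {d | C.M.tl d ∈ o {v}} _ (C.td v)
            ⟨v, rfl, (C.td1 v).symm⟩ (H.good F hv h (C.td1 v))
          obtain ⟨y, y1, y2⟩ := m2 d _ hv d1.symm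
          refine ⟨y, y1, ?_, fun v' _ e => ⟨d, ?_, y2⟩, fun _ e => absurd e Sum.inl_ne_inr⟩
          · have := N1 _ _ d (sf d) d2
            rw [y2, cls_free h, l1 _ h, l5 d d (sf d) (H.good F hv h d1.symm)]
            omega
          · rw [cls_free h] at e
            rw [← singleton_injective (Sum.inl.inj e), d1]
        · obtain ⟨a, ha, b, bX, hb, e⟩ := F.exists_exit (fun x hx => (H.sub R hR x hx).2) hv h
          have bf := H.bd_free hR ⟨hb, a, ha, e⟩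
          obtain ⟨y, y1, y2⟩ := m3 a (H.sub R hR a ha).1 b bX e (by
            rw [H.cls_mem hR ha, cls_free bf]
            exact fun k => hb (k ▸ rfl))
          rw [H.cls_mem hR ha] at y1
          rw [H.cls_mem hR h]
          refine ⟨y, y1, ?_, fun v' k e => ?_, fun _ e => absurd e Sum.inl_ne_inr⟩
          · rw [y2, cls_free bf, l3 R hR]
            exact (l2 b bX bf).trans_lt (by omega)
          · exact absurd (Sum.inl.inj e ▸ rfl) (k R hR)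
      · by_cases k : ∃ e ∈ C.fc X d, C.FN X d0 (free 𝓜) m e
        · obtain ⟨e, b, c⟩ := k
          obtain ⟨g, g1, g2⟩ := N2 _ _ e b c
          have g3 := l5 d e b c
          have g4 := N1 (C.fc X d)
          generalize N (C.fc X d) = n at g2 g3 g4
          rcases n with _ | n
          · exact absurd (congrArg Sum.inr (fc_eq.2 (Equiv.Perm.SameCycle.trans g1
              (Equiv.Perm.SameCycle.symm g2)))) hx
          rcases g2 with g2 | ⟨p, p', p1, ⟨u, hu, p2⟩, p3, p4⟩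
          · exact absurd (g4 _ g g1 g2) (by omega)
          have uX : u ∈ X := by
            have := p1.mem F.h0
            rwa [← p2, some_mem_o] at this
          obtain ⟨y, y1, y2⟩ := m2 p' u uX (p3.trans p2.symm)
          have p5 : (C.f X).SameCycle d p' := Equiv.Perm.SameCycle.trans g1 p4.symm
          rw [cls_free hu] at y1
          refine ⟨M.a y, by rw [y2, fc_eq.2 p5], ?_, fun _ _ e => absurd e Sum.inr_ne_inl,
            fun d' e _ => ⟨u, uX, hu, by rw [M.aa, y1], p', p3.trans p2.symm,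
              (fc_eq.1 (Sum.inr.inj e)).symm.trans p5⟩⟩
          have := N1 {d | C.M.tl d ∈ o {u}} _ p ⟨u, rfl, p2⟩ p1
          rw [M.aa, y1, g3, l1 u hu]
          omega
        · obtain ⟨v, hv, e⟩ := hd
          obtain ⟨y, y1, y2⟩ := m2 d v hv e.symm
          refine ⟨M.a y, y2, ?_, fun _ _ e => absurd e Sum.inr_ne_inl,
            fun d' e k' => absurd ⟨d', Sum.inr.inj e ▸ sf d', k'⟩ k⟩
          rw [M.aa, y1]
          exact ((l4 v hv).trans_lt (by omega)).trans_eq (if_neg k).symm)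
  refine ⟨T, fun v hv h => ?_⟩
  obtain ⟨x, x1, -⟩ := m2 _ v hv (C.td1 v)
  rw [cls_free h] at x1
  have n1 : T.nr (.inl {v}) := ⟨⟨x, x1⟩, T1 ▸ Sum.inl_ne_inr⟩
  obtain ⟨d, d1, d2⟩ := (T2 _ n1).1 v h rfl
  refine ⟨d, d1, (em _).imp id fun k => ?_⟩
  have n2 : T.nr (.inr (C.fc X d)) := ⟨⟨_, (T.spec n1).2.1.trans d2⟩,
    T1 ▸ fun e => k (fc_eq.1 (Sum.inr.inj e)).symm⟩
  obtain ⟨u, u1, u2, u3, e⟩ := (T2 _ n2).2 d rfl (H.good F hv h d1)
  refine ⟨u, u1, u2, .head ⟨n1, d2⟩ (.single ⟨n2, u3⟩), ?_, e⟩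
  have a := (T.spec n1).2.2
  have b := (T.spec n2).2.2
  rw [d2] at a
  rw [u3] at b
  exact b.trans a

end Ctx

end Pool.Agent.P.MP_845aff_co.TW
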